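import Mathlib

set_option autoImplicit false

namespace Pool.Agent.Helper167.Cao

/-- `Good P N m`: there is a finite strictly increasing tuple of integers in `(1, m]` with product `P`
whose reciprocals sum to `2 - N / P`. -/
def Good (P N m : ℕ) : Prop :=
  ∃ s : ℕ, ∃ x : Fin s → ℕ, StrictMono x ∧ (∀ i, 1 < x i) ∧ (∀ i, x i ≤ m) ∧
    (∏ i, x i) = P ∧ (∑ i, (1 : ℚ) / (x i : ℚ)) + (N : ℚ) / (P : ℚ) = 2

theorem good_zero : Good 1 2 1 := by
  refine ⟨0, Fin.elim0, ?_, ?_, ?_, ?_, ?_⟩
  · intro i; exact i.elim0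
  · intro i; exact i.elim0
  · intro i; exact i.elim0
  · simp
  · norm_num

theorem good_pos {P N m : ℕ} (h : Good P N m) : 0 < P := by
  obtain ⟨s, x, hmono, h1, hm, hP, hS⟩ := h
  rw [← hP]
  exact Finset.prod_pos (fun i _ => by have := h1 i; omega)

theorem good_step {P N m N' y : ℕ} (h : Good P N m) (hm : m < y) (hy : 1 < y)
    (e : N * y = P + N') : Good (P * y) N' y := by
  have hPpos := good_pos h
  obtain ⟨s, x, hmono, h1, hmx, hP, hS⟩ := h
  refine ⟨s + 1, Fin.snoc x y, ?_, ?_, ?_, ?_, ?_⟩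
  · intro i j hij
    induction j using Fin.lastCases with
    | last =>
      induction i using Fin.lastCases with
      | last => exact absurd hij (lt_irrefl _)
      | cast i =>
        simp only [Fin.snoc_castSucc, Fin.snoc_last]
        exact lt_of_le_of_lt (hmx i) hm
    | cast j =>
      induction i using Fin.lastCases with
      | last =>
        exfalso
        have := Fin.castSucc_lt_last j
        exact absurd (hij.trans this) (lt_irrefl _)
      | cast i =>
        simp only [Fin.snoc_castSucc]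
        exact hmono (by simpa using hij)
  · intro i
    induction i using Fin.lastCases with
    | last => simpa only [Fin.snoc_last] using hy
    | cast i => simpa only [Fin.snoc_castSucc] using h1 i
  · intro i
    induction i using Fin.lastCases with
    | last => simp only [Fin.snoc_last]; exact le_refl _
    | cast i => simp only [Fin.snoc_castSucc]; exact (le_of_lt (lt_of_le_of_lt (hmx i) hm))
  · rw [Fin.prod_univ_castSucc]
    simp only [Fin.snoc_castSucc, Fin.snoc_last, hP]
  · rw [Fin.sum_univ_castSucc]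
    simp only [Fin.snoc_castSucc, Fin.snoc_last]
    have hPq : (P : ℚ) ≠ 0 := by exact_mod_cast hPpos.ne'
    have hyq : (y : ℚ) ≠ 0 := by
      have : y ≠ 0 := by omega
      exact_mod_cast this
    have eq : (N : ℚ) * y = P + N' := by exact_mod_cast e
    have key : (1 : ℚ) / y + (N' : ℚ) / ((P * y : ℕ) : ℚ) = (N : ℚ) / P := by
      push_cast
      rw [div_add_div _ _ hyq (mul_ne_zero hPq hyq), div_eq_div_iff (mul_ne_zero hyq (mul_ne_zero hPq hyq)) hPq]
      linear_combination (-(P:ℚ)*y) * eq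
    rw [add_assoc, key, hS]

/-- Phase 1: explicit elements. -/
def chk1 : List ℕ → ℕ → ℕ → ℕ → Bool
  | [], _, _, _ => true
  | y :: l, P, N, m => decide (m < y) && decide (P < N * y) && chk1 l (P * y) (N * y - P) y

def fin1 : List ℕ → ℕ → ℕ → ℕ → ℕ × ℕ × ℕ
  | [], P, N, m => (P, N, m)
  | y :: l, P, N, _ => fin1 l (P * y) (N * y - P) y

theorem phase1 : ∀ (l : List ℕ) (P N m : ℕ), Good P N m → 0 < m → chk1 l P N m = true →
    Good (fin1 l P N m).1 (fin1 l P N m).2.1 (fin1 l P N m).2.2 := by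
  intro l
  induction l with
  | nil => intro P N m h _ _; exact h
  | cons y l ih =>
    intro P N m h hm hc
    simp only [chk1, Bool.and_eq_true, decide_eq_true_eq] at hc
    obtain ⟨⟨h1, h2⟩, h3⟩ := hc
    simp only [fin1]
    refine ih _ _ _ (good_step h h1 (by omega) ?_) (by omega) h3
    omega

/-- Phase 2: the running product is only tracked modulo `M`. -/
def chk2 (B : ℕ) : List ℕ → ℕ → ℕ → ℕ → Bool
  | [], N, _, _ => N == 1
  | N' :: l, N, p, M =>
    Nat.ble 1 N && Nat.blt N' B && (M % N == 0) && ((p + N') % N == 0) &&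
      chk2 B l N' ((p * ((p + N') / N)) % (M / N)) (M / N)

theorem phase2 (B : ℕ) : ∀ (l : List ℕ) (P N m p M : ℕ), Good P N m → 0 < m → m * N < P →
    B ≤ P → P ≡ p [MOD M] → chk2 B l N p M = true → ∃ P' m', Good P' 1 m' := by
  intro l
  induction l with
  | nil =>
    intro P N m p M h _ _ _ _ hc
    simp only [chk2, beq_iff_eq] at hc
    subst hc
    exact ⟨P, m, h⟩
  | cons N' l ih =>
    intro P N m p M h hm0 hmN hB hmod hc
    simp only [chk2, Bool.and_eq_true, beq_iff_eq, Nat.ble_eq, Nat.blt_eq] at hc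
    obtain ⟨⟨⟨⟨hN, hN'⟩, hM⟩, hp⟩, hrec⟩ := hc
    have hNpos : 0 < N := hN
    have hdM : N ∣ M := Nat.dvd_of_mod_eq_zero hM
    have hdp : N ∣ p + N' := Nat.dvd_of_mod_eq_zero hp
    have hmodN : P + N' ≡ p + N' [MOD M] := Nat.ModEq.add_right N' hmod
    have hdP : N ∣ P + N' := by
      have : P + N' ≡ p + N' [MOD N] := hmodN.of_dvd hdM
      exact (this.dvd_iff dvd_rfl).mpr hdp
    obtain ⟨y, hy⟩ := hdP
    obtain ⟨y', hy'⟩ := hdp
    obtain ⟨M', hM'⟩ := hdM
    have hyd : (p + N') / N = y' := by rw [hy']; exact Nat.mul_div_cancel_left y' hNpos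
    have hMd : M / N = M' := by rw [hM']; exact Nat.mul_div_cancel_left M' hNpos
    have hmy : m < y := by
      by_contra hcon
      have h1 : N * y ≤ N * m := Nat.mul_le_mul_left N (by omega)
      have h2 : N * m = m * N := Nat.mul_comm _ _
      omega
    rw [hyd, hMd] at hrec
    have hG : Good (P * y) N' y := good_step h hmy (by omega) hy.symm
    have hNP : N' < P := lt_of_lt_of_le hN' hB
    have hypos : 0 < y := by omega
    refine ih (P * y) N' y _ M' hG hypos ?_ ?_ ?_ hrec
    · rw [Nat.mul_comm]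
      exact Nat.mul_lt_mul_of_pos_right hNP hypos
    · exact le_trans hB (Nat.le_mul_of_pos_right P hypos)
    · have h1 : y ≡ y' [MOD M'] := by
        rw [hy, hy', hM'] at hmodN
        exact Nat.ModEq.mul_left_cancel' (by omega) hmodN
      have h2 : P ≡ p [MOD M'] := hmod.of_dvd (by rw [hM']; exact Dvd.intro_left N rfl)
      exact (h2.mul h1).trans (Nat.mod_modEq _ _).symm

theorem final_of_good {P m : ℕ} (h : Good P 1 m) :
    ∃ s : ℕ, ∃ x : Fin s → ℕ, StrictMono x ∧ (∀ i, 1 < x i) ∧
      (∑ i, (1 : ℚ) / (x i : ℚ)) + 1 / (∏ i, (x i : ℚ)) = 2 := by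
  obtain ⟨s, x, hmono, h1, hmx, hP, hS⟩ := h
  refine ⟨s, x, hmono, h1, ?_⟩
  rw [← hS, ← hP]
  push_cast
  ring

end Pool.Agent.Helper167.Cao
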