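import Pool.Agent.Helper167.TorusGeom2

/-! The adjacency graph of the faces has no proper colouring with 4 colours. -/

set_option autoImplicit false

namespace Pool.Agent.Helper167.Torus

/-- Adjacency of faces. -/
def adj (i j : ℕ) : Bool := decide ((com i j).length = 2)

/-- The order in which the faces are coloured. -/
def ord : List ℕ := [12, 0, 1, 2, 6, 7, 8, 3, 4, 5, 9, 10, 11]

/-- The list of pairs (face, colour) chosen so far is compatible with giving `f` colour `c`. -/
def okc (f c : ℕ) (pre : List (ℕ × ℕ)) : Bool := pre.all fun q => !(adj f q.1 && q.2 == c)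

/-- Exhaustive search for a colouring of the faces in the list. -/
def srch : List ℕ → List (ℕ × ℕ) → Bool
  | [], _ => true
  | f :: L, pre => (List.range 4).any fun c => okc f c pre && srch L ((f, c) :: pre)

lemma srch_sound (c : ℕ → ℕ) (hc : ∀ i, c i < 4)
    (hadj : ∀ i j, i < 15 → j < 15 → i ≠ j → adj i j = true → c i ≠ c j) :
    ∀ (L M : List ℕ), (∀ i ∈ L, i < 15) → (∀ i ∈ M, i < 15) → L.Nodup → (∀ i ∈ L, i ∉ M) →
      srch L (M.map fun i => (i, c i)) = true := by
  intro L
  induction L with
  | nil => intro M _ _ _ _; rfl
  | cons f L ih =>
    intro M hL hM hn hd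
    unfold srch
    rw [List.any_eq_true]
    refine ⟨c f, List.mem_range.2 (hc f), ?_⟩
    rw [Bool.and_eq_true]
    constructor
    · unfold okc
      rw [List.all_eq_true]
      intro q hq
      rw [List.mem_map] at hq
      obtain ⟨i, hi, rfl⟩ := hq
      have hne : f ≠ i := by
        intro he
        subst he
        exact hd f (by simp) hi
      cases ha : adj f i with
      | false => simp
      | true =>
        have := hadj f i (hL f (by simp)) (hM i hi) hne ha
        simp only [Bool.true_and, Bool.not_eq_true', beq_eq_false_iff_ne, ne_eq]
        exact fun h => this h.symm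
    · have h := ih (f :: M) (fun i hi => hL i (by simp [hi]))
        (fun i hi => by
          rcases List.mem_cons.1 hi with rfl | hi
          · exact hL i (by simp)
          · exact hM i hi)
        (List.nodup_cons.1 hn).2
        (fun i hi hi2 => by
          rcases List.mem_cons.1 hi2 with rfl | hi2
          · exact (List.nodup_cons.1 hn).1 hi
          · exact hd i (by simp [hi]) hi2)
      simpa using h

lemma srch_false : srch ord [] = false := by
  decide +kernel

lemma no_colouring (c : ℕ → ℕ) (hc : ∀ i, c i < 4)
    (hadj : ∀ i j, i < 15 → j < 15 → i ≠ j → adj i j = true → c i ≠ c j) : False := by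
  have h := srch_sound c hc hadj ord [] (by decide) (by simp) (by decide) (by simp)
  rw [List.map_nil, srch_false] at h
  exact absurd h (by decide)

end Pool.Agent.Helper167.Torus
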