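import Mathlib

/-! Data of a polyhedral torus with 24 vertices, 39 edges and 15 convex faces: the convex polytope
cut out by the first 12 functionals, minus the convex tunnel `z < 3, 2y - z < 3, -2y - z < 3`. -/

set_option autoImplicit false

namespace Pool.Agent.Helper167.Torus

/-- Integer quadruple: a point in homogeneous coordinates or an affine functional. -/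
structure V4 where
  x : ℤ
  y : ℤ
  z : ℤ
  w : ℤ
deriving DecidableEq

/-- One triangle of a fan with its barycentric certificate. -/
structure Stp where
  a : ℕ
  b : ℕ
  c : ℕ
  fa : V4
  fb : V4
  fc : V4
  ma : ℤ
  mb : ℤ
  mc : ℤ
  q : V4
  D : ℤ
  d : V4

/-- A nonnegative combination certificate. -/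
structure Der where
  f1 : V4
  f2 : V4
  f3 : V4
  m1 : ℤ
  m2 : ℤ
  m3 : ℤ
  k : ℤ
  D : ℤ

/-- The vertices in homogeneous coordinates. -/
def vertL : List V4 := [
  ⟨-14, 8, 4, 1⟩,
  ⟨-128, 142, 116, 15⟩,
  ⟨-16, 30, 28, 3⟩,
  ⟨-4, 10, 10, 1⟩,
  ⟨0, 2, 12, 1⟩,
  ⟨0, -2, 12, 1⟩,
  ⟨4, -10, 10, 1⟩,
  ⟨16, -30, 28, 3⟩,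
  ⟨128, -142, 116, 15⟩,
  ⟨14, -8, 4, 1⟩,
  ⟨-140, 6, -36, 7⟩,
  ⟨-99, 11, -38, 5⟩,
  ⟨99, -11, -38, 5⟩,
  ⟨140, -6, -36, 7⟩,
  ⟨-17, 3, 3, 1⟩,
  ⟨17, -3, 3, 1⟩,
  ⟨-17, -3, 3, 1⟩,
  ⟨17, 3, 3, 1⟩,
  ⟨-20, 0, -3, 1⟩,
  ⟨20, 0, -3, 1⟩,
  ⟨-18, 0, 3, 1⟩,
  ⟨18, 0, 3, 1⟩,
  ⟨-18, -2, 3, 1⟩,
  ⟨18, 2, 3, 1⟩]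

/-- The faces as cyclic lists of vertices. -/
def faceL : List (List ℕ) := [
  [20, 22, 5, 4, 3, 2, 1],
  [14, 20, 1, 0],
  [6, 5, 22, 16],
  [11, 10, 18, 14, 0],
  [6, 7, 10, 18, 16],
  [11, 12, 13, 2, 1, 0],
  [6, 7, 8, 21, 23, 4, 5],
  [8, 9, 15, 21],
  [4, 23, 17, 3],
  [15, 9, 12, 13, 19],
  [13, 19, 17, 3, 2],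
  [7, 8, 9, 12, 11, 10],
  [22, 16, 15, 21, 23, 17, 14, 20],
  [18, 19, 17, 14],
  [16, 15, 19, 18]]

/-- The functionals of the faces: nonnegative inside the polytope for the first 12, nonnegative outside
the corresponding wall of the tunnel for the last 3. -/
def nfL : List V4 := [
  ⟨1, 0, -2, 24⟩,
  ⟨3, -1, -4, 66⟩,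
  ⟨1, 1, -2, 26⟩,
  ⟨9, -5, -2, 174⟩,
  ⟨1, 5, 2, 26⟩,
  ⟨-1, -9, 5, 38⟩,
  ⟨-1, 0, -2, 24⟩,
  ⟨-3, 1, -4, 66⟩,
  ⟨-1, -1, -2, 26⟩,
  ⟨-9, 5, -2, 174⟩,
  ⟨-1, -5, 2, 26⟩,
  ⟨1, 9, 5, 38⟩,
  ⟨0, 0, 1, -3⟩,
  ⟨0, 2, -1, -3⟩,
  ⟨0, -2, -1, -3⟩]

/-- For each of the first 12 faces a wall of the tunnel having the face on its outer side. -/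
def wofL : List ℕ := [0, 0, 0, 1, 2, 1, 0, 0, 0, 2, 1, 2]

/-- Auxiliary functionals. -/
def tgtL : List V4 := [⟨0, 0, 1, -3⟩, ⟨0, 0, 1, -3⟩, ⟨0, 0, 1, -3⟩, ⟨0, 2, -1, -3⟩, ⟨0, -2, -1, -3⟩, ⟨1, 0, -2, 24⟩, ⟨0, 0, 1, -3⟩, ⟨0, 0, 1, -3⟩, ⟨0, 0, 1, -3⟩, ⟨0, -2, -1, -3⟩, ⟨0, 2, -1, -3⟩, ⟨1, 0, -2, 24⟩]

/-- Certificates that the auxiliary functionals are nonnegative. -/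
def derL : List (List Der) := [
  [⟨⟨0, 0, 1, -3⟩, ⟨1, 0, -2, 24⟩, ⟨1, 0, -2, 24⟩, 1, 0, 0, 0, 1⟩,
    ⟨⟨0, 2, -1, -3⟩, ⟨3, -1, -4, 66⟩, ⟨1, 1, -2, 26⟩, 1, 5, 3, -18, 9⟩,
    ⟨⟨0, -2, -1, -3⟩, ⟨3, -1, -4, 66⟩, ⟨1, 1, -2, 26⟩, 1, 1, 3, -6, 1⟩],
  [⟨⟨0, 0, 1, -3⟩, ⟨1, 0, -2, 24⟩, ⟨1, 0, -2, 24⟩, 1, 0, 0, 0, 1⟩,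
    ⟨⟨0, 2, -1, -3⟩, ⟨1, 0, -2, 24⟩, ⟨9, -5, -2, 174⟩, 1, 0, 1, -3, 9⟩,
    ⟨⟨0, -2, -1, -3⟩, ⟨1, 1, -2, 26⟩, ⟨9, -5, -2, 174⟩, 3, 6, 1, -5, 3⟩],
  [⟨⟨0, 0, 1, -3⟩, ⟨1, 0, -2, 24⟩, ⟨1, 0, -2, 24⟩, 1, 0, 0, 0, 1⟩,
    ⟨⟨0, 2, -1, -3⟩, ⟨3, -1, -4, 66⟩, ⟨1, 5, 2, 26⟩, 2, 4, 3, -15, 18⟩,
    ⟨⟨0, -2, -1, -3⟩, ⟨1, 0, -2, 24⟩, ⟨1, 5, 2, 26⟩, 2, 0, 1, -1, 2⟩],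
  [⟨⟨0, 0, 1, -3⟩, ⟨1, 0, -2, 24⟩, ⟨3, -1, -4, 66⟩, 9, 0, 3, -1, 1⟩,
    ⟨⟨0, 2, -1, -3⟩, ⟨1, 0, -2, 24⟩, ⟨1, 0, -2, 24⟩, 1, 0, 0, 0, 1⟩,
    ⟨⟨0, -2, -1, -3⟩, ⟨1, 0, -2, 24⟩, ⟨1, 5, 2, 26⟩, 45, 0, 18, -2, 5⟩],
  [⟨⟨0, 0, 1, -3⟩, ⟨1, 0, -2, 24⟩, ⟨1, 1, -2, 26⟩, 2, 0, 1, -1, 2⟩,
    ⟨⟨0, 2, -1, -3⟩, ⟨1, 0, -2, 24⟩, ⟨9, -5, -2, 174⟩, 5, 0, 2, -18, 45⟩,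
    ⟨⟨0, -2, -1, -3⟩, ⟨1, 0, -2, 24⟩, ⟨1, 0, -2, 24⟩, 1, 0, 0, 0, 1⟩],
  [⟨⟨1, 0, -2, 24⟩, ⟨1, 0, -2, 24⟩, ⟨1, 0, -2, 24⟩, 1, 0, 0, 0, 1⟩,
    ⟨⟨1, 0, -2, 24⟩, ⟨1, 0, -2, 24⟩, ⟨1, 0, -2, 24⟩, 1, 0, 0, 0, 1⟩,
    ⟨⟨1, 0, -2, 24⟩, ⟨1, 0, -2, 24⟩, ⟨1, 0, -2, 24⟩, 1, 0, 0, 0, 1⟩],
  [⟨⟨0, 0, 1, -3⟩, ⟨1, 0, -2, 24⟩, ⟨1, 0, -2, 24⟩, 1, 0, 0, 0, 1⟩,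
    ⟨⟨0, 2, -1, -3⟩, ⟨-3, 1, -4, 66⟩, ⟨-1, -1, -2, 26⟩, 1, 1, 3, -6, 1⟩,
    ⟨⟨0, -2, -1, -3⟩, ⟨-3, 1, -4, 66⟩, ⟨-1, -1, -2, 26⟩, 1, 5, 3, -18, 9⟩],
  [⟨⟨0, 0, 1, -3⟩, ⟨1, 0, -2, 24⟩, ⟨1, 0, -2, 24⟩, 1, 0, 0, 0, 1⟩,
    ⟨⟨0, 2, -1, -3⟩, ⟨-1, -1, -2, 26⟩, ⟨-9, 5, -2, 174⟩, 3, 6, 1, -5, 3⟩,
    ⟨⟨0, -2, -1, -3⟩, ⟨1, 0, -2, 24⟩, ⟨-9, 5, -2, 174⟩, 1, 0, 1, -3, 9⟩],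
  [⟨⟨0, 0, 1, -3⟩, ⟨1, 0, -2, 24⟩, ⟨1, 0, -2, 24⟩, 1, 0, 0, 0, 1⟩,
    ⟨⟨0, 2, -1, -3⟩, ⟨1, 0, -2, 24⟩, ⟨-1, -5, 2, 26⟩, 2, 0, 1, -1, 2⟩,
    ⟨⟨0, -2, -1, -3⟩, ⟨-3, 1, -4, 66⟩, ⟨-1, -5, 2, 26⟩, 2, 4, 3, -15, 18⟩],
  [⟨⟨0, 0, 1, -3⟩, ⟨1, 0, -2, 24⟩, ⟨-3, 1, -4, 66⟩, 9, 0, 3, -1, 1⟩,
    ⟨⟨0, 2, -1, -3⟩, ⟨1, 0, -2, 24⟩, ⟨-1, -5, 2, 26⟩, 45, 0, 18, -2, 5⟩,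
    ⟨⟨0, -2, -1, -3⟩, ⟨1, 0, -2, 24⟩, ⟨1, 0, -2, 24⟩, 1, 0, 0, 0, 1⟩],
  [⟨⟨0, 0, 1, -3⟩, ⟨1, 0, -2, 24⟩, ⟨-1, -1, -2, 26⟩, 2, 0, 1, -1, 2⟩,
    ⟨⟨0, 2, -1, -3⟩, ⟨1, 0, -2, 24⟩, ⟨1, 0, -2, 24⟩, 1, 0, 0, 0, 1⟩,
    ⟨⟨0, -2, -1, -3⟩, ⟨1, 0, -2, 24⟩, ⟨-9, 5, -2, 174⟩, 5, 0, 2, -18, 45⟩],
  [⟨⟨1, 0, -2, 24⟩, ⟨1, 0, -2, 24⟩, ⟨1, 0, -2, 24⟩, 1, 0, 0, 0, 1⟩,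
    ⟨⟨1, 0, -2, 24⟩, ⟨1, 0, -2, 24⟩, ⟨1, 0, -2, 24⟩, 1, 0, 0, 0, 1⟩,
    ⟨⟨1, 0, -2, 24⟩, ⟨1, 0, -2, 24⟩, ⟨1, 0, -2, 24⟩, 1, 0, 0, 0, 1⟩]]

/-- The fans of triangles of the faces. -/
def fanL : List (List Stp) := [
  [⟨20, 22, 5, ⟨1, 1, -2, 26⟩, ⟨-1, -9, 0, -18⟩, ⟨0, 0, 1, -3⟩, 9, 1, 2, ⟨162, -2, -24, -8⟩, 18, ⟨-1, -9, 0, -18⟩⟩,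
    ⟨20, 5, 4, ⟨-1, 0, -2, 24⟩, ⟨1, -9, 0, 18⟩, ⟨1, 9, 0, 18⟩, 1, 1, 1, ⟨18, 0, -21, -1⟩, 36, ⟨1, -9, 0, 18⟩⟩,
    ⟨20, 4, 3, ⟨-1, -1, -2, 26⟩, ⟨5, -7, 0, 90⟩, ⟨-1, 9, 0, -18⟩, 2, 1, 1, ⟨36, 0, -44, -2⟩, 76, ⟨5, -7, 0, 90⟩⟩,
    ⟨20, 3, 2, ⟨-1, -5, 2, 26⟩, ⟨15, -19, 0, 270⟩, ⟨-5, 7, 0, -90⟩, 2, 5, 5, ⟨-36, 0, -44, 2⟩, 100, ⟨15, -19, 0, 270⟩⟩,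
    ⟨20, 2, 1, ⟨-1, -9, 5, 38⟩, ⟨3, -1, -4, 66⟩, ⟨-15, 19, 0, -270⟩, 8, 71, 1, ⟨1912, -4260, -4200, -406⟩, 568, ⟨0, 0, 0, 0⟩⟩],
  [⟨14, 20, 1, ⟨1, 0, -2, 24⟩, ⟨97, -127, 0, 2030⟩, ⟨0, 0, 1, -3⟩, 284, 1, 4, ⟨2286, -284, -381, -127⟩, 284, ⟨97, -127, 0, 2030⟩⟩,
    ⟨14, 1, 0, ⟨-1, -9, 5, 38⟩, ⟨9, -5, -2, 174⟩, ⟨-97, 127, 0, -2030⟩, 24, 2, 3, ⟨-382, -52, -284, 15⟩, 1032, ⟨0, 0, 0, 0⟩⟩],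
  [⟨6, 5, 22, ⟨1, 0, -2, 24⟩, ⟨4, 11, 0, 94⟩, ⟨-1, 0, -2, 24⟩, 9, 1, 2, ⟨0, 94, -132, -11⟩, 72, ⟨4, 11, 0, 94⟩⟩,
    ⟨6, 22, 16, ⟨0, 0, 1, -3⟩, ⟨1, 5, 2, 26⟩, ⟨-4, -11, 0, -94⟩, 4, 7, 4, ⟨-118, -34, 27, 9⟩, 28, ⟨0, 0, 0, 0⟩⟩],
  [⟨11, 10, 18, ⟨1, 5, 2, 26⟩, ⟨-11, 1, 0, -220⟩, ⟨1, 9, 5, 38⟩, 3, 5, 10, ⟨-797, 33, -204, 40⟩, 30, ⟨-11, 1, 0, -220⟩⟩,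
    ⟨11, 18, 14, ⟨0, 2, -1, -3⟩, ⟨2, -7, 0, 55⟩, ⟨11, -1, 0, 220⟩, 2, 6, 3, ⟨99, -11, -7, -5⟩, 90, ⟨2, -7, 0, 55⟩⟩,
    ⟨11, 14, 0, ⟨3, -1, -4, 66⟩, ⟨-1, -9, 5, 38⟩, ⟨-2, 7, 0, -55⟩, 43, 174, 258, ⟨1119, 359, 832, 5⟩, 7482, ⟨0, 0, 0, 0⟩⟩],
  [⟨6, 7, 10, ⟨1, 9, 5, 38⟩, ⟨19, 42, 0, 344⟩, ⟨-1, 0, -2, 24⟩, 190, 5, 1, ⟨-2040, 4756, -4596, -468⟩, 380, ⟨19, 42, 0, 344⟩⟩,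
    ⟨6, 10, 18, ⟨9, -5, -2, 174⟩, ⟨5, 12, 0, 100⟩, ⟨-19, -42, 0, -344⟩, 3, 10, 20, ⟨12, -30, 390, 3⟩, 720, ⟨5, 12, 0, 100⟩⟩,
    ⟨6, 18, 16, ⟨0, -2, -1, -3⟩, ⟨1, 1, -2, 26⟩, ⟨-5, -12, 0, -100⟩, 12, 7, 4, ⟨-116, -60, 81, 13⟩, 84, ⟨0, 0, 0, 0⟩⟩],
  [⟨11, 12, 13, ⟨-9, 5, -2, 174⟩, ⟨-107, -1393, 0, 946⟩, ⟨1, 9, 5, 38⟩, 5, 1, 55, ⟨-7898, 352, 3796, -375⟩, 9460, ⟨-107, -1393, 0, 946⟩⟩,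
    ⟨11, 13, 2, ⟨-1, -5, 2, 26⟩, ⟨117, -217, 0, 2794⟩, ⟨107, 1393, 0, -946⟩, 380, 1, 1, ⟨15048, -1672, 13224, -760⟩, 37240, ⟨117, -217, 0, 2794⟩⟩,
    ⟨11, 2, 1, ⟨1, 0, -2, 24⟩, ⟨109, -169, 0, 2530⟩, ⟨-117, 217, 0, -2794⟩, 40, 5, 1, ⟨-1584, 176, 168, 80⟩, 3880, ⟨109, -169, 0, 2530⟩⟩,
    ⟨11, 1, 0, ⟨3, -1, -4, 66⟩, ⟨9, -5, -2, 174⟩, ⟨-109, 169, 0, -2530⟩, 86, 29, 43, ⟨-8296, 2404, 1724, 518⟩, 14964, ⟨0, 0, 0, 0⟩⟩],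
  [⟨6, 7, 8, ⟨1, 9, 5, 38⟩, ⟨2, -17, 0, -178⟩, ⟨1, 5, 2, 26⟩, 20, 5, 1, ⟨328, -642, 596, 65⟩, 40, ⟨2, -17, 0, -178⟩⟩,
    ⟨6, 8, 21, ⟨-3, 1, -4, 66⟩, ⟨5, -7, 0, -90⟩, ⟨-2, 17, 0, 178⟩, 71, 1, 2, ⟨-568, 1420, -1562, -142⟩, 284, ⟨5, -7, 0, -90⟩⟩,
    ⟨6, 21, 23, ⟨0, 0, 1, -3⟩, ⟨6, -7, 0, -94⟩, ⟨-5, 7, 0, 90⟩, 2, 1, 1, ⟨4, -10, 3, 1⟩, 14, ⟨6, -7, 0, -94⟩⟩,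
    ⟨6, 23, 4, ⟨-1, -1, -2, 26⟩, ⟨3, 1, 0, -2⟩, ⟨-6, 7, 0, 94⟩, 9, 2, 1, ⟨-36, 90, -144, -9⟩, 108, ⟨3, 1, 0, -2⟩⟩,
    ⟨6, 4, 5, ⟨1, 0, -2, 24⟩, ⟨1, 1, -2, 26⟩, ⟨-3, -1, 0, 2⟩, 1, 2, 2, ⟨-4, 6, -38, -3⟩, 8, ⟨0, 0, 0, 0⟩⟩],
  [⟨8, 9, 15, ⟨-9, 5, -2, 174⟩, ⟨97, -127, 0, -2030⟩, ⟨1, 9, 5, 38⟩, 2, 3, 24, ⟨382, 52, -284, 15⟩, 1032, ⟨97, -127, 0, -2030⟩⟩,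
    ⟨8, 15, 21, ⟨0, 0, 1, -3⟩, ⟨-1, 0, -2, 24⟩, ⟨-97, 127, 0, 2030⟩, 4, 284, 1, ⟨-2286, 284, -381, -127⟩, 284, ⟨0, 0, 0, 0⟩⟩],
  [⟨4, 23, 17, ⟨0, 0, 1, -3⟩, ⟨1, -17, 0, 34⟩, ⟨-1, 0, -2, 24⟩, 2, 1, 18, ⟨-306, -52, -51, -17⟩, 18, ⟨1, -17, 0, 34⟩⟩,
    ⟨4, 17, 3, ⟨-1, -5, 2, 26⟩, ⟨1, 0, -2, 24⟩, ⟨-1, 17, 0, -34⟩, 7, 8, 2, ⟨-136, -10, -80, -1⟩, 280, ⟨0, 0, 0, 0⟩⟩],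
  [⟨15, 9, 12, ⟨1, 9, 5, 38⟩, ⟨2, -7, 0, -55⟩, ⟨-3, 1, -4, 66⟩, 174, 258, 43, ⟨-1119, -359, 832, 5⟩, 7482, ⟨2, -7, 0, -55⟩⟩,
    ⟨15, 12, 13, ⟨-1, -9, 5, 38⟩, ⟨5, -7, 0, -106⟩, ⟨-2, 7, 0, 55⟩, 2, 3, 2, ⟨85, -15, -48, 5⟩, 126, ⟨5, -7, 0, -106⟩⟩,
    ⟨15, 13, 19, ⟨-1, -5, 2, 26⟩, ⟨0, -2, -1, -3⟩, ⟨-5, 7, 0, 106⟩, 9, 10, 45, ⟨-547, 3, 72, -26⟩, 270, ⟨0, 0, 0, 0⟩⟩],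
  [⟨13, 19, 17, ⟨0, 2, -1, -3⟩, ⟨9, 7, 0, -174⟩, ⟨-9, 5, -2, 174⟩, 10, 5, 1, ⟨717, -27, -162, 36⟩, 30, ⟨9, 7, 0, -174⟩⟩,
    ⟨13, 17, 3, ⟨-1, -1, -2, 26⟩, ⟨19, 42, 0, -344⟩, ⟨-9, -7, 0, 174⟩, 7, 8, 6, ⟨980, -42, 168, 49⟩, 840, ⟨19, 42, 0, -344⟩⟩,
    ⟨13, 3, 2, ⟨1, 0, -2, 24⟩, ⟨-1, -9, 5, 38⟩, ⟨-19, -42, 0, 344⟩, 1, 190, 5, ⟨2040, -4756, -4596, -468⟩, 380, ⟨0, 0, 0, 0⟩⟩],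
  [⟨7, 8, 9, ⟨-3, 1, -4, 66⟩, ⟨3, -13, 0, -146⟩, ⟨-1, 0, -2, 24⟩, 5, 1, 20, ⟨176, -184, 152, 20⟩, 40, ⟨3, -13, 0, -146⟩⟩,
    ⟨7, 9, 12, ⟨-9, 5, -2, 174⟩, ⟨117, -217, 0, -2794⟩, ⟨-3, 13, 0, 146⟩, 145, 43, 86, ⟨928, -1740, 6612, 174⟩, 24940, ⟨117, -217, 0, -2794⟩⟩,
    ⟨7, 12, 11, ⟨-1, -9, 5, 38⟩, ⟨183, 377, 0, 2794⟩, ⟨-117, 217, 0, 2794⟩, 55, 1, 1, ⟨-880, 1650, 4048, -165⟩, 27940, ⟨183, 377, 0, 2794⟩⟩,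
    ⟨7, 11, 10, ⟨9, -5, -2, 174⟩, ⟨1, 5, 2, 26⟩, ⟨-183, -377, 0, -2794⟩, 5, 380, 1, ⟨15080, -1732, 6592, -754⟩, 3800, ⟨0, 0, 0, 0⟩⟩],
  [⟨22, 16, 15, ⟨0, 2, 1, 3⟩, ⟨-1, -35, 0, -88⟩, ⟨1, 1, -2, 26⟩, 17, 1, 1, ⟨340, 28, -11, -15⟩, 34, ⟨-1, -35, 0, -88⟩⟩,
    ⟨22, 15, 21, ⟨-3, 1, -4, 66⟩, ⟨1, -18, 0, -18⟩, ⟨1, 35, 0, 88⟩, 1, 2, 1, ⟨-72, -8, 118, 4⟩, 106, ⟨1, -18, 0, -18⟩⟩,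
    ⟨22, 21, 23, ⟨-1, 0, -2, 24⟩, ⟨1, -9, 0, 0⟩, ⟨-1, 18, 0, 18⟩, 1, 2, 1, ⟨-36, -4, 42, 2⟩, 36, ⟨1, -9, 0, 0⟩⟩,
    ⟨22, 23, 17, ⟨-1, -1, -2, 26⟩, ⟨1, -7, 0, 4⟩, ⟨-1, 9, 0, 0⟩, 1, 5, 4, ⟨-36, -4, 46, 2⟩, 40, ⟨1, -7, 0, 4⟩⟩,
    ⟨22, 17, 14, ⟨0, -2, 1, 3⟩, ⟨5, -1, 0, 88⟩, ⟨-1, 7, 0, -4⟩, 17, 1, 5, ⟨306, 34, 119, -17⟩, 170, ⟨5, -1, 0, 88⟩⟩,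
    ⟨22, 14, 20, ⟨3, -1, -4, 66⟩, ⟨1, 0, -2, 24⟩, ⟨-5, 1, 0, -88⟩, 1, 2, 1, ⟨-140, 4, 26, 8⟩, 2, ⟨0, 0, 0, 0⟩⟩],
  [⟨18, 19, 17, ⟨-1, -5, 2, 26⟩, ⟨3, -37, 0, 60⟩, ⟨0, 2, 1, 3⟩, 3, 1, 10, ⟨50, 30, -108, 16⟩, 120, ⟨3, -37, 0, 60⟩⟩,
    ⟨18, 17, 14, ⟨0, 0, -1, 3⟩, ⟨9, -5, -2, 174⟩, ⟨-3, 37, 0, -60⟩, 51, 1, 3, ⟨986, -6, -159, -53⟩, 306, ⟨0, 0, 0, 0⟩⟩],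
  [⟨16, 15, 19, ⟨-9, 5, -2, 174⟩, ⟨3, -37, 0, -60⟩, ⟨0, 0, -1, 3⟩, 1, 3, 51, ⟨-986, 6, -159, -53⟩, 306, ⟨3, -37, 0, -60⟩⟩,
    ⟨16, 19, 18, ⟨0, -2, 1, 3⟩, ⟨1, 5, 2, 26⟩, ⟨-3, 37, 0, 60⟩, 10, 3, 1, ⟨-50, -30, -108, 16⟩, 120, ⟨0, 0, 0, 0⟩⟩]]

/-- Separating functionals of pairs of faces. -/
def sepL : List (List V4) := [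
  [⟨0, 0, 0, 0⟩, ⟨-2, 1, 2, -42⟩, ⟨0, -1, 0, -2⟩, ⟨-8, 5, 0, -150⟩, ⟨0, -5, -4, -2⟩, ⟨2, 9, -7, -14⟩, ⟨2, 0, 0, 0⟩, ⟨4, -1, 2, -42⟩, ⟨2, 1, 0, -2⟩, ⟨10, -5, 0, -150⟩, ⟨2, 5, -4, -2⟩, ⟨0, -9, -7, -14⟩, ⟨1, 0, -3, 27⟩, ⟨0, 1, -2, 5⟩, ⟨0, -2, -2, 1⟩],
  [⟨2, -1, -2, 42⟩, ⟨0, 0, 0, 0⟩, ⟨2, -2, -2, 40⟩, ⟨-6, 4, -2, -108⟩, ⟨2, -6, -6, 40⟩, ⟨4, 8, -9, 28⟩, ⟨4, -1, -2, 42⟩, ⟨6, -2, 0, 0⟩, ⟨4, 0, -2, 40⟩, ⟨12, -6, -2, -108⟩, ⟨4, 4, -6, 40⟩, ⟨2, -10, -9, 28⟩, ⟨3, -1, -5, 69⟩, ⟨1, 0, -4, 29⟩, ⟨0, -1, -1, 2⟩],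
  [⟨0, 1, 0, 2⟩, ⟨-2, 2, 2, -40⟩, ⟨0, 0, 0, 0⟩, ⟨-8, 6, 0, -148⟩, ⟨0, -4, -4, 0⟩, ⟨2, 10, -7, -12⟩, ⟨2, 1, 0, 2⟩, ⟨4, 0, 2, -40⟩, ⟨2, 2, 0, 0⟩, ⟨10, -4, 0, -148⟩, ⟨2, 6, -4, 0⟩, ⟨0, -8, -7, -12⟩, ⟨1, 1, -3, 29⟩, ⟨0, 1, 0, 1⟩, ⟨1, 0, -4, 29⟩],
  [⟨8, -5, 0, 150⟩, ⟨6, -4, 2, 108⟩, ⟨8, -6, 0, 148⟩, ⟨0, 0, 0, 0⟩, ⟨8, -10, -4, 148⟩, ⟨10, 4, -7, 136⟩, ⟨10, -5, 0, 150⟩, ⟨12, -6, 2, 108⟩, ⟨10, -4, 0, 148⟩, ⟨18, -10, 0, 0⟩, ⟨10, 0, -4, 148⟩, ⟨8, -14, -7, 136⟩, ⟨1, -1, 1, 17⟩, ⟨1, -1, 0, 20⟩, ⟨1, -2, 0, 20⟩],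
  [⟨0, 5, 4, 2⟩, ⟨-2, 6, 6, -40⟩, ⟨0, 4, 4, 0⟩, ⟨-8, 10, 4, -148⟩, ⟨0, 0, 0, 0⟩, ⟨2, 14, -3, -12⟩, ⟨2, 5, 4, 2⟩, ⟨4, 4, 6, -40⟩, ⟨2, 6, 4, 0⟩, ⟨10, 0, 4, -148⟩, ⟨2, 10, 0, 0⟩, ⟨0, -4, -3, -12⟩, ⟨1, 8, 4, 29⟩, ⟨1, 12, 5, 35⟩, ⟨1, 7, 3, 29⟩],
  [⟨-2, -9, 7, 14⟩, ⟨-4, -8, 9, -28⟩, ⟨-2, -10, 7, 12⟩, ⟨-10, -4, 7, -136⟩, ⟨-2, -14, 3, 12⟩, ⟨0, 0, 0, 0⟩, ⟨0, -9, 7, 14⟩, ⟨2, -10, 9, -28⟩, ⟨0, -8, 7, 12⟩, ⟨8, -14, 7, -136⟩, ⟨0, -4, 3, 12⟩, ⟨-2, -18, 0, 0⟩, ⟨0, -2, 2, 1⟩, ⟨0, -12, 6, 19⟩, ⟨0, -12, 6, 19⟩],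
  [⟨-2, 0, 0, 0⟩, ⟨-4, 1, 2, -42⟩, ⟨-2, -1, 0, -2⟩, ⟨-10, 5, 0, -150⟩, ⟨-2, -5, -4, -2⟩, ⟨0, 9, -7, -14⟩, ⟨0, 0, 0, 0⟩, ⟨2, -1, 2, -42⟩, ⟨0, 1, 0, -2⟩, ⟨8, -5, 0, -150⟩, ⟨0, 5, -4, -2⟩, ⟨-2, -9, -7, -14⟩, ⟨-1, 0, -3, 27⟩, ⟨0, 2, -2, 1⟩, ⟨-2, 0, -4, 47⟩],
  [⟨-4, 1, -2, 42⟩, ⟨-6, 2, 0, 0⟩, ⟨-4, 0, -2, 40⟩, ⟨-12, 6, -2, -108⟩, ⟨-4, -4, -6, 40⟩, ⟨-2, 10, -9, 28⟩, ⟨-2, 1, -2, 42⟩, ⟨0, 0, 0, 0⟩, ⟨-2, 2, -2, 40⟩, ⟨6, -4, -2, -108⟩, ⟨-2, 6, -6, 40⟩, ⟨-4, -8, -9, 28⟩, ⟨-3, 1, -5, 69⟩, ⟨0, 1, -1, 2⟩, ⟨-1, 0, -4, 29⟩],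
  [⟨-2, -1, 0, 2⟩, ⟨-4, 0, 2, -40⟩, ⟨-2, -2, 0, 0⟩, ⟨-10, 4, 0, -148⟩, ⟨-2, -6, -4, 0⟩, ⟨0, 8, -7, -12⟩, ⟨0, -1, 0, 2⟩, ⟨2, -2, 2, -40⟩, ⟨0, 0, 0, 0⟩, ⟨8, -6, 0, -148⟩, ⟨0, 4, -4, 0⟩, ⟨-2, -10, -7, -12⟩, ⟨-1, -1, -3, 29⟩, ⟨-1, 0, -4, 29⟩, ⟨0, -1, 0, 1⟩],
  [⟨-10, 5, 0, 150⟩, ⟨-12, 6, 2, 108⟩, ⟨-10, 4, 0, 148⟩, ⟨-18, 10, 0, 0⟩, ⟨-10, 0, -4, 148⟩, ⟨-8, 14, -7, 136⟩, ⟨-8, 5, 0, 150⟩, ⟨-6, 4, 2, 108⟩, ⟨-8, 6, 0, 148⟩, ⟨0, 0, 0, 0⟩, ⟨-8, 10, -4, 148⟩, ⟨-10, -4, -7, 136⟩, ⟨-1, 1, 1, 17⟩, ⟨-1, 2, 0, 20⟩, ⟨-1, 1, 0, 20⟩],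
  [⟨-2, -5, 4, 2⟩, ⟨-4, -4, 6, -40⟩, ⟨-2, -6, 4, 0⟩, ⟨-10, 0, 4, -148⟩, ⟨-2, -10, 0, 0⟩, ⟨0, 4, -3, -12⟩, ⟨0, -5, 4, 2⟩, ⟨2, -6, 6, -40⟩, ⟨0, -4, 4, 0⟩, ⟨8, -10, 4, -148⟩, ⟨0, 0, 0, 0⟩, ⟨-2, -14, -3, -12⟩, ⟨-1, -8, 4, 29⟩, ⟨-1, -7, 3, 29⟩, ⟨-1, -12, 5, 35⟩],
  [⟨0, 9, 7, 14⟩, ⟨-2, 10, 9, -28⟩, ⟨0, 8, 7, 12⟩, ⟨-8, 14, 7, -136⟩, ⟨0, 4, 3, 12⟩, ⟨2, 18, 0, 0⟩, ⟨2, 9, 7, 14⟩, ⟨4, 8, 9, -28⟩, ⟨2, 10, 7, 12⟩, ⟨10, 4, 7, -136⟩, ⟨2, 14, 3, 12⟩, ⟨0, 0, 0, 0⟩, ⟨0, 2, 2, 1⟩, ⟨0, 12, 6, 19⟩, ⟨0, 12, 6, 19⟩],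
  [⟨-1, 0, 3, -27⟩, ⟨-3, 1, 5, -69⟩, ⟨-1, -1, 3, -29⟩, ⟨-1, 1, -1, -17⟩, ⟨-1, -8, -4, -29⟩, ⟨0, 2, -2, -1⟩, ⟨1, 0, 3, -27⟩, ⟨3, -1, 5, -69⟩, ⟨1, 1, 3, -29⟩, ⟨1, -1, -1, -17⟩, ⟨1, 8, -4, -29⟩, ⟨0, -2, -2, -1⟩, ⟨0, 0, 0, 0⟩, ⟨0, 2, -2, 0⟩, ⟨0, -2, -2, 0⟩],
  [⟨0, -1, 2, -5⟩, ⟨-1, 0, 4, -29⟩, ⟨0, -1, 0, -1⟩, ⟨-1, 1, 0, -20⟩, ⟨-1, -12, -5, -35⟩, ⟨0, 12, -6, -19⟩, ⟨0, -2, 2, -1⟩, ⟨0, -1, 1, -2⟩, ⟨1, 0, 4, -29⟩, ⟨1, -2, 0, -20⟩, ⟨1, 7, -3, -29⟩, ⟨0, -12, -6, -19⟩, ⟨0, -2, 2, 0⟩, ⟨0, 0, 0, 0⟩, ⟨0, -4, 0, 0⟩],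
  [⟨0, 2, 2, -1⟩, ⟨0, 1, 1, -2⟩, ⟨-1, 0, 4, -29⟩, ⟨-1, 2, 0, -20⟩, ⟨-1, -7, -3, -29⟩, ⟨0, 12, -6, -19⟩, ⟨2, 0, 4, -47⟩, ⟨1, 0, 4, -29⟩, ⟨0, 1, 0, -1⟩, ⟨1, -1, 0, -20⟩, ⟨1, 12, -5, -35⟩, ⟨0, -12, -6, -19⟩, ⟨0, 2, 2, 0⟩, ⟨0, 4, 0, 0⟩, ⟨0, 0, 0, 0⟩]]

end Pool.Agent.Helper167.Torus
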