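import Pool.Agent.Helper167.TorusData

/-! Geometry of the polyhedral torus: faces, intersections, dimensions. -/

set_option autoImplicit false

namespace Pool.Agent.Helper167.Torus

open Set

abbrev E3 := EuclideanSpace ℝ (Fin 3)

/-- Pairing of a functional with a homogeneous point. -/
def dot (f v : V4) : ℤ := f.x * v.x + f.y * v.y + f.z * v.z + f.w * v.w

/-- Value of an affine functional. -/
noncomputable def ev (f : V4) (p : E3) : ℝ := f.x * p 0 + f.y * p 1 + f.z * p 2 + f.w

/-- Linear part. -/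
noncomputable def lin (f : V4) : E3 →L[ℝ] ℝ :=
  (f.x : ℝ) • EuclideanSpace.proj 0 + (f.y : ℝ) • EuclideanSpace.proj 1
    + (f.z : ℝ) • EuclideanSpace.proj 2

/-- The point with given homogeneous coordinates. -/
noncomputable def pt (v : V4) : E3 := !₂[(v.x : ℝ) / v.w, (v.y : ℝ) / v.w, (v.z : ℝ) / v.w]

lemma lin_apply (f : V4) (p : E3) : lin f p = f.x * p 0 + f.y * p 1 + f.z * p 2 := by
  simp [lin]

lemma ev_eq (f : V4) (p : E3) : ev f p = lin f p + f.w := by
  rw [lin_apply]; rfl

lemma ev_pt (f v : V4) (hv : 0 < v.w) : ev f (pt v) = (dot f v : ℤ) / (v.w : ℝ) := by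
  have h : (v.w : ℝ) ≠ 0 := by exact_mod_cast hv.ne'
  simp only [ev, pt, dot]
  simp
  field_simp

/-- Vertex `k`. -/
def vert (k : ℕ) : V4 := vertL.getD k ⟨0, 0, 0, 1⟩

/-- Vertices of face `i`. -/
def fv (i : ℕ) : List ℕ := faceL.getD i []

/-- Functional of face `i`. -/
def nf (i : ℕ) : V4 := nfL.getD i ⟨0, 0, 0, 0⟩

/-- Separating functional. -/
def sep (i j : ℕ) : V4 := (sepL.getD i []).getD j ⟨0, 0, 0, 0⟩

/-- Common vertices. -/
def com (i j : ℕ) : List ℕ := (fv i).filter (fun v => (fv j).contains v)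

lemma vert_w (k : ℕ) : 0 < (vert k).w := by
  have h : ∀ v ∈ vertL, 0 < v.w := by decide +kernel
  unfold vert
  rw [List.getD_eq_getElem?_getD]
  by_cases hk : k < vertL.length
  · rw [List.getElem?_eq_getElem hk]
    exact h _ (List.getElem_mem hk)
  · rw [List.getElem?_eq_none (by omega)]
    decide

open Classical in
/-- The point set of a list of vertex numbers. -/
noncomputable def PS (L : List ℕ) : Finset E3 := L.toFinset.image (fun k => pt (vert k))

lemma mem_PS (L : List ℕ) (p : E3) : p ∈ PS L ↔ ∃ k ∈ L, pt (vert k) = p := by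
  classical
  simp [PS]

lemma ev_vert (f : V4) (k : ℕ) : ev f (pt (vert k)) = (dot f (vert k) : ℤ) / ((vert k).w : ℝ) :=
  ev_pt f _ (vert_w k)

lemma vw_pos (k : ℕ) : (0 : ℝ) < ((vert k).w : ℝ) := by exact_mod_cast vert_w k

lemma ev_vert_nonneg (f : V4) (k : ℕ) (h : 0 ≤ dot f (vert k)) : 0 ≤ ev f (pt (vert k)) := by
  rw [ev_vert]
  have : (0 : ℝ) ≤ ((dot f (vert k) : ℤ) : ℝ) := by exact_mod_cast h
  exact div_nonneg this (vw_pos k).le

lemma ev_vert_nonpos (f : V4) (k : ℕ) (h : dot f (vert k) ≤ 0) : ev f (pt (vert k)) ≤ 0 := by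
  rw [ev_vert]
  have : ((dot f (vert k) : ℤ) : ℝ) ≤ 0 := by exact_mod_cast h
  exact div_nonpos_of_nonpos_of_nonneg this (vw_pos k).le

lemma ev_vert_eq_zero (f : V4) (k : ℕ) : ev f (pt (vert k)) = 0 ↔ dot f (vert k) = 0 := by
  rw [ev_vert, div_eq_zero_iff]
  constructor
  · rintro (h | h)
    · exact_mod_cast h
    · exact absurd h (vw_pos k).ne'
  · intro h
    left
    exact_mod_cast h

/-! ### Convex hulls and a separating functional -/

lemma hull_le {s : Finset E3} (l : E3 →L[ℝ] ℝ) (c : ℝ) (h : ∀ x ∈ s, l x ≤ c) :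
    ∀ x ∈ convexHull ℝ (s : Set E3), l x ≤ c := by
  intro x hx
  have hc : Convex ℝ {y : E3 | l y ≤ c} := by
    exact convex_halfSpace_le l.toLinearMap.isLinear c
  exact convexHull_min (fun y hy => h y (by exact_mod_cast hy)) hc hx

lemma hull_eq {s u : Finset E3} (l : E3 →L[ℝ] ℝ) (c : ℝ) (h : ∀ x ∈ s, l x ≤ c)
    (hu : ∀ x ∈ s, l x = c → x ∈ u) :
    ∀ x ∈ convexHull ℝ (s : Set E3), l x = c → x ∈ convexHull ℝ (u : Set E3) := by
  classical
  intro x hx hlx
  rw [Finset.mem_convexHull'] at hx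
  obtain ⟨w, hw0, hw1, hwx⟩ := hx
  have h1 : ∑ y ∈ s, w y * (c - l y) = 0 := by
    have : l x = ∑ y ∈ s, w y * l y := by
      rw [← hwx, map_sum]
      simp
    simp only [mul_sub, Finset.sum_sub_distrib, ← Finset.sum_mul, hw1, ← this, hlx]
    ring
  have h2 : ∀ y ∈ s, w y * (c - l y) = 0 := by
    rw [Finset.sum_eq_zero_iff_of_nonneg] at h1
    · exact h1
    · intro y hy
      exact mul_nonneg (hw0 y hy) (by linarith [h y hy])
  have h3 : ∀ y ∈ s, y ∉ u → w y = 0 := by
    intro y hy hyu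
    rcases mul_eq_zero.1 (h2 y hy) with h' | h'
    · exact h'
    · exact absurd (hu y hy (by linarith)) hyu
  rw [Finset.mem_convexHull']
  refine ⟨fun y => if y ∈ s then w y else 0, ?_, ?_, ?_⟩
  · intro y _
    dsimp only
    split_ifs with hy
    · exact hw0 y hy
    · exact le_rfl
  · rw [← hw1]
    rw [← Finset.sum_filter]
    apply Finset.sum_subset_zero_on_sdiff
    · intro y hy
      exact (Finset.mem_filter.1 hy).2
    · intro y hy
      rw [Finset.mem_sdiff, Finset.mem_filter] at hy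
      exact h3 y hy.1 (fun hyu => hy.2 ⟨hyu, hy.1⟩)
    · intro y _
      rfl
  · rw [← hwx]
    simp only [ite_smul, zero_smul]
    rw [← Finset.sum_filter]
    apply Finset.sum_subset_zero_on_sdiff
    · intro y hy
      exact (Finset.mem_filter.1 hy).2
    · intro y hy
      rw [Finset.mem_sdiff, Finset.mem_filter] at hy
      rw [h3 y hy.1 (fun hyu => hy.2 ⟨hyu, hy.1⟩), zero_smul]
    · intro y _
      rfl

lemma hull_inter {s t u : Finset E3} (l : E3 →L[ℝ] ℝ) (c : ℝ) (hs : ∀ x ∈ s, l x ≤ c)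
    (ht : ∀ x ∈ t, c ≤ l x) (hus : u ⊆ s) (hut : u ⊆ t) (hsu : ∀ x ∈ s, l x = c → x ∈ u) :
    convexHull ℝ (s : Set E3) ∩ convexHull ℝ (t : Set E3) = convexHull ℝ (u : Set E3) := by
  apply Set.Subset.antisymm
  · rintro x ⟨hxs, hxt⟩
    have h1 := hull_le l c hs x hxs
    have h2 := hull_le (-l) (-c) (fun y hy => by simpa using ht y hy) x hxt
    have h3 : l x = c := by
      have h2' : c ≤ l x := by simpa using h2
      linarith
    exact hull_eq l c hs hsu x hxs h3
  · intro x hx
    exact ⟨convexHull_mono (by exact_mod_cast hus) hx, convexHull_mono (by exact_mod_cast hut) hx⟩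

lemma hull_exposed {s t u : Finset E3} (l : E3 →L[ℝ] ℝ) (c : ℝ) (hs : ∀ x ∈ s, l x ≤ c)
    (ht : ∀ x ∈ t, c ≤ l x) (hut : u ⊆ t) (hsu : ∀ x ∈ s, l x = c → x ∈ u) :
    IsExposed ℝ (convexHull ℝ (s : Set E3))
      (convexHull ℝ (s : Set E3) ∩ convexHull ℝ (t : Set E3)) := by
  rintro ⟨z, hzs, hzt⟩
  refine ⟨l, ?_⟩
  have hz : c ≤ l z := by
    have h2 := hull_le (-l) (-c) (fun y hy => by simpa using ht y hy) z hzt
    simpa using h2
  apply Set.Subset.antisymm
  · rintro x ⟨hxs, hxt⟩
    refine ⟨hxs, fun y hy => ?_⟩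
    have h1 := hull_le l c hs y hy
    have h2 := hull_le (-l) (-c) (fun y hy => by simpa using ht y hy) x hxt
    have h2' : c ≤ l x := by simpa using h2
    linarith
  · rintro x ⟨hxs, hmax⟩
    refine ⟨hxs, ?_⟩
    have h1 := hull_le l c hs x hxs
    have h3 : l x = c := by
      have := hmax z hzs
      linarith
    exact convexHull_mono (by exact_mod_cast hut) (hull_eq l c hs hsu x hxs h3)

/-! ### Intersections of faces -/

lemma chk_sep : ((List.range 15).all fun i => (List.range 15).all fun j => i == j ||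
    ((fv i).all (fun v => decide (dot (sep i j) (vert v) ≤ 0) &&
        (decide (dot (sep i j) (vert v) ≠ 0) || (fv j).contains v)) &&
     (fv j).all (fun v => decide (0 ≤ dot (sep i j) (vert v)) &&
        (decide (dot (sep i j) (vert v) ≠ 0) || (fv i).contains v)))) = true := by
  decide +kernel

lemma sep_spec (i j : ℕ) (hi : i < 15) (hj : j < 15) (hij : i ≠ j) :
    (∀ v ∈ fv i, dot (sep i j) (vert v) ≤ 0 ∧ (dot (sep i j) (vert v) = 0 → v ∈ fv j)) ∧
    (∀ v ∈ fv j, 0 ≤ dot (sep i j) (vert v) ∧ (dot (sep i j) (vert v) = 0 → v ∈ fv i)) := by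
  have h := chk_sep
  rw [List.all_eq_true] at h
  have h1 := h i (List.mem_range.2 hi)
  rw [List.all_eq_true] at h1
  have h2 := h1 j (List.mem_range.2 hj)
  rw [Bool.or_eq_true, Bool.and_eq_true, List.all_eq_true, List.all_eq_true] at h2
  rcases h2 with h2 | ⟨h2, h3⟩
  · exact absurd (by simpa using h2) hij
  · constructor
    · intro v hv
      have := h2 v hv
      simp only [Bool.and_eq_true, Bool.or_eq_true, decide_eq_true_eq, List.contains_iff_mem] at this
      exact ⟨this.1, fun h0 => this.2.resolve_left (fun h' => h' h0)⟩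
    · intro v hv
      have := h3 v hv
      simp only [Bool.and_eq_true, Bool.or_eq_true, decide_eq_true_eq, List.contains_iff_mem] at this
      exact ⟨this.1, fun h0 => this.2.resolve_left (fun h' => h' h0)⟩

lemma mem_com (i j v : ℕ) : v ∈ com i j ↔ v ∈ fv i ∧ v ∈ fv j := by
  simp [com]

lemma PS_mono {L M : List ℕ} (h : ∀ v ∈ L, v ∈ M) : PS L ⊆ PS M := by
  intro p hp
  rw [mem_PS] at hp ⊢
  obtain ⟨k, hk, rfl⟩ := hp
  exact ⟨k, h k hk, rfl⟩

lemma lin_vert (f : V4) (k : ℕ) : lin f (pt (vert k)) = ev f (pt (vert k)) - f.w := by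
  rw [ev_eq]; ring

lemma face_inter (i j : ℕ) (hi : i < 15) (hj : j < 15) (hij : i ≠ j) :
    convexHull ℝ (PS (fv i) : Set E3) ∩ convexHull ℝ (PS (fv j) : Set E3)
      = convexHull ℝ (PS (com i j) : Set E3) := by
  obtain ⟨h1, h2⟩ := sep_spec i j hi hj hij
  apply hull_inter (lin (sep i j)) (-(sep i j).w : ℝ)
  · intro x hx
    obtain ⟨k, hk, rfl⟩ := (mem_PS _ _).1 hx
    rw [lin_vert]
    have := ev_vert_nonpos _ _ (h1 k hk).1
    linarith
  · intro x hx
    obtain ⟨k, hk, rfl⟩ := (mem_PS _ _).1 hx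
    rw [lin_vert]
    have := ev_vert_nonneg _ _ (h2 k hk).1
    linarith
  · exact PS_mono (fun v hv => ((mem_com _ _ _).1 hv).1)
  · exact PS_mono (fun v hv => ((mem_com _ _ _).1 hv).2)
  · intro x hx hl
    obtain ⟨k, hk, rfl⟩ := (mem_PS _ _).1 hx
    rw [lin_vert] at hl
    have h0 : ev (sep i j) (pt (vert k)) = 0 := by linarith
    rw [ev_vert_eq_zero] at h0
    exact (mem_PS _ _).2 ⟨k, (mem_com _ _ _).2 ⟨hk, (h1 k hk).2 h0⟩, rfl⟩

lemma face_exposed (i j : ℕ) (hi : i < 15) (hj : j < 15) (hij : i ≠ j) :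
    IsExposed ℝ (convexHull ℝ (PS (fv i) : Set E3))
      (convexHull ℝ (PS (fv i) : Set E3) ∩ convexHull ℝ (PS (fv j) : Set E3)) := by
  obtain ⟨h1, h2⟩ := sep_spec i j hi hj hij
  apply hull_exposed (u := PS (com i j)) (lin (sep i j)) (-(sep i j).w : ℝ)
  · intro x hx
    obtain ⟨k, hk, rfl⟩ := (mem_PS _ _).1 hx
    rw [lin_vert]
    have := ev_vert_nonpos _ _ (h1 k hk).1
    linarith
  · intro x hx
    obtain ⟨k, hk, rfl⟩ := (mem_PS _ _).1 hx
    rw [lin_vert]
    have := ev_vert_nonneg _ _ (h2 k hk).1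
    linarith
  · exact PS_mono (fun v hv => ((mem_com _ _ _).1 hv).2)
  · intro x hx hl
    obtain ⟨k, hk, rfl⟩ := (mem_PS _ _).1 hx
    rw [lin_vert] at hl
    have h0 : ev (sep i j) (pt (vert k)) = 0 := by linarith
    rw [ev_vert_eq_zero] at h0
    exact (mem_PS _ _).2 ⟨k, (mem_com _ _ _).2 ⟨hk, (h1 k hk).2 h0⟩, rfl⟩

/-! ### Dimensions -/

lemma vspan_hull (s : Set E3) : vectorSpan ℝ (convexHull ℝ s) = vectorSpan ℝ s := by
  rw [← direction_affineSpan, affineSpan_convexHull, direction_affineSpan]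

lemma chk_com : ((List.range 15).all fun i => (List.range 15).all fun j => i == j ||
    (decide ((com i j).length ≤ 2) &&
      ((com i j).all fun v => decide (v < 24)) && decide (com i j).Nodup)) = true := by
  decide +kernel

lemma com_spec (i j : ℕ) (hi : i < 15) (hj : j < 15) (hij : i ≠ j) :
    (com i j).length ≤ 2 ∧ (∀ v ∈ com i j, v < 24) ∧ (com i j).Nodup := by
  have h := chk_com
  rw [List.all_eq_true] at h
  have h1 := h i (List.mem_range.2 hi)
  rw [List.all_eq_true] at h1
  have h2 := h1 j (List.mem_range.2 hj)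
  rw [Bool.or_eq_true, Bool.and_eq_true, Bool.and_eq_true, List.all_eq_true] at h2
  rcases h2 with h2 | ⟨⟨h2, h3⟩, h4⟩
  · exact absurd (by simpa using h2) hij
  · exact ⟨by simpa using h2, fun v hv => by simpa using h3 v hv, by simpa using h4⟩

lemma chk_vert : ((List.range 24).all fun a => (List.range 24).all fun b => a == b ||
    (decide ((vert a).x * (vert b).w ≠ (vert b).x * (vert a).w) ||
     decide ((vert a).y * (vert b).w ≠ (vert b).y * (vert a).w) ||
     decide ((vert a).z * (vert b).w ≠ (vert b).z * (vert a).w))) = true := by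
  decide +kernel

lemma pt_ne (a b : ℕ) (ha : a < 24) (hb : b < 24) (hab : a ≠ b) :
    pt (vert a) ≠ pt (vert b) := by
  intro he
  have h := chk_vert
  rw [List.all_eq_true] at h
  have h1 := h a (List.mem_range.2 ha)
  rw [List.all_eq_true] at h1
  have h2 := h1 b (List.mem_range.2 hb)
  simp only [Bool.or_eq_true, decide_eq_true_eq, beq_iff_eq] at h2
  have hx := congrArg (fun p : E3 => p 0) he
  have hy := congrArg (fun p : E3 => p 1) he
  have hz := congrArg (fun p : E3 => p 2) he
  have hwa := (vw_pos a).ne'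
  have hwb := (vw_pos b).ne'
  simp only [pt] at hx hy hz
  simp at hx hy hz
  rw [div_eq_div_iff hwa hwb] at hx hy hz
  rcases h2 with h2 | ((h2 | h2) | h2)
  · exact hab h2
  · exact h2 (by exact_mod_cast hx)
  · exact h2 (by exact_mod_cast hy)
  · exact h2 (by exact_mod_cast hz)

lemma finrank_pair {a b : E3} (h : a ≠ b) :
    Module.finrank ℝ (vectorSpan ℝ ({a, b} : Set E3)) = 1 := by
  rw [vectorSpan_pair_rev] 
  apply finrank_span_singleton
  rw [vsub_eq_sub, sub_ne_zero]
  exact h.symm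

lemma inter_finrank (i j : ℕ) (hi : i < 15) (hj : j < 15) (hij : i ≠ j) :
    ((com i j).length = 2 → Module.finrank ℝ (vectorSpan ℝ
      (convexHull ℝ (PS (fv i) : Set E3) ∩ convexHull ℝ (PS (fv j) : Set E3))) = 1) ∧
    ((com i j).length ≠ 2 → Module.finrank ℝ (vectorSpan ℝ
      (convexHull ℝ (PS (fv i) : Set E3) ∩ convexHull ℝ (PS (fv j) : Set E3))) = 0) := by
  obtain ⟨h1, h2, h3⟩ := com_spec i j hi hj hij
  rw [face_inter i j hi hj hij, vspan_hull]
  constructor
  · intro hl
    match hc : com i j with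
    | [a, b] =>
      rw [hc] at h2 h3
      have hset : (PS [a, b] : Set E3) = {pt (vert a), pt (vert b)} := by
        ext p
        simp only [Finset.mem_coe, mem_PS, List.mem_cons, List.not_mem_nil, or_false,
          Set.mem_insert_iff, Set.mem_singleton_iff]
        constructor
        · rintro ⟨k, (rfl | rfl), rfl⟩
          · left; rfl
          · right; rfl
        · rintro (rfl | rfl)
          · exact ⟨a, Or.inl rfl, rfl⟩
          · exact ⟨b, Or.inr rfl, rfl⟩
      rw [hset]
      apply finrank_pair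
      apply pt_ne a b (h2 a (by simp)) (h2 b (by simp))
      intro hab
      subst hab
      simp at h3
    | [] => rw [hc] at hl; simp at hl
    | [a] => rw [hc] at hl; simp at hl
    | a :: b :: c :: L => rw [hc] at hl; simp at hl
  · intro hl
    match hc : com i j with
    | [a, b] => rw [hc] at hl; simp at hl
    | [] =>
      have hset : (PS ([] : List ℕ) : Set E3) = ∅ := by
        ext p
        simp [mem_PS]
      rw [hset]
      simp
    | [a] =>
      have hset : (PS [a] : Set E3) = {pt (vert a)} := by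
        ext p
        simp [mem_PS, eq_comm]
      rw [hset]
      simp
    | a :: b :: c :: L => rw [hc] at h1; simp at h1

end Pool.Agent.Helper167.Torus
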