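import Pool.Agent.Helper167.TorusGeom

/-! Dimensions of the faces, and adjacent faces are not coplanar. -/

set_option autoImplicit false

namespace Pool.Agent.Helper167.Torus

open Set

lemma chk_plane : ((List.range 15).all fun i =>
    ((fv i).all fun v => decide (dot (nf i) (vert v) = 0)) && decide ((nf i).z ≠ 0)) = true := by
  decide +kernel

lemma plane_spec (i : ℕ) (hi : i < 15) :
    (∀ v ∈ fv i, dot (nf i) (vert v) = 0) ∧ (nf i).z ≠ 0 := by
  have h := chk_plane
  rw [List.all_eq_true] at h
  have h1 := h i (List.mem_range.2 hi)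
  rw [Bool.and_eq_true, List.all_eq_true] at h1
  exact ⟨fun v hv => by simpa using h1.1 v hv, by simpa using h1.2⟩

/-- Twice the signed area of the projected triangle, cleared of denominators. -/
def area (a b c : V4) : ℤ :=
  (b.x * a.w - a.x * b.w) * (c.y * a.w - a.y * c.w)
    - (b.y * a.w - a.y * b.w) * (c.x * a.w - a.x * c.w)

lemma chk_area : ((List.range 15).all fun i => match fv i with
    | a :: b :: c :: _ => decide (area (vert a) (vert b) (vert c) ≠ 0)
    | _ => false) = true := by
  decide +kernel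

lemma area_spec (i : ℕ) (hi : i < 15) : ∃ a ∈ fv i, ∃ b ∈ fv i, ∃ c ∈ fv i,
    area (vert a) (vert b) (vert c) ≠ 0 := by
  have h := chk_area
  rw [List.all_eq_true] at h
  have h1 := h i (List.mem_range.2 hi)
  match hf : fv i with
  | a :: b :: c :: L =>
    rw [hf] at h1
    exact ⟨a, by simp, b, by simp, c, by simp, by simpa using h1⟩
  | [] => rw [hf] at h1; simp at h1
  | [a] => rw [hf] at h1; simp at h1
  | [a, b] => rw [hf] at h1; simp at h1

lemma vspan_le_ker (i : ℕ) (hi : i < 15) :
    vectorSpan ℝ (PS (fv i) : Set E3) ≤ LinearMap.ker (lin (nf i)).toLinearMap := by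
  rw [vectorSpan_def, Submodule.span_le]
  rintro _ ⟨p, hp, q, hq, rfl⟩
  obtain ⟨k, hk, rfl⟩ := (mem_PS _ _).1 hp
  obtain ⟨m, hm, rfl⟩ := (mem_PS _ _).1 hq
  have h1 := (ev_vert_eq_zero (nf i) k).2 ((plane_spec i hi).1 k hk)
  have h2 := (ev_vert_eq_zero (nf i) m).2 ((plane_spec i hi).1 m hm)
  simp only [vsub_eq_sub, SetLike.mem_coe, LinearMap.mem_ker, ContinuousLinearMap.coe_coe, map_sub]
  rw [lin_vert, lin_vert, h1, h2]
  ring

lemma finrank_ker (i : ℕ) (hi : i < 15) :
    Module.finrank ℝ (LinearMap.ker (lin (nf i)).toLinearMap) = 2 := by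
  have h := LinearMap.finrank_range_add_finrank_ker (lin (nf i)).toLinearMap
  have h3 : Module.finrank ℝ E3 = 3 := by simp
  have hr : LinearMap.range (lin (nf i)).toLinearMap = ⊤ := by
    rw [LinearMap.range_eq_top]
    intro c
    have hz : ((nf i).z : ℝ) ≠ 0 := by exact_mod_cast (plane_spec i hi).2
    refine ⟨!₂[0, 0, c / (nf i).z], ?_⟩
    rw [ContinuousLinearMap.coe_coe, lin_apply]
    simp
    field_simp
  rw [hr, h3, finrank_top, Module.finrank_self] at h
  omega

lemma face_finrank (i : ℕ) (hi : i < 15) :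
    Module.finrank ℝ (vectorSpan ℝ (convexHull ℝ (PS (fv i) : Set E3))) = 2 := by
  rw [vspan_hull]
  apply le_antisymm
  · rw [← finrank_ker i hi]
    exact Submodule.finrank_mono (vspan_le_ker i hi)
  · obtain ⟨a, ha, b, hb, c, hc, hA⟩ := area_spec i hi
    have hli : LinearIndependent ℝ ![pt (vert b) - pt (vert a), pt (vert c) - pt (vert a)] := by
      rw [LinearIndependent.pair_iff]
      intro s t hst
      have hx := congrArg (fun p : E3 => p 0) hst
      have hy := congrArg (fun p : E3 => p 1) hst
      simp [pt] at hx hy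
      have hwa := (vw_pos a).ne'
      have hwb := (vw_pos b).ne'
      have hwc := (vw_pos c).ne'
      have hA' : ((((vert b).x : ℝ) * (vert a).w - (vert a).x * (vert b).w) * ((vert c).y * (vert a).w - (vert a).y * (vert c).w)
    - ((vert b).y * (vert a).w - (vert a).y * (vert b).w) * ((vert c).x * (vert a).w - (vert a).x * (vert c).w)) ≠ 0 := by
        unfold area at hA
        exact_mod_cast hA
      have hdet : (((vert b).x : ℝ) / (vert b).w - (vert a).x / (vert a).w)
            * ((vert c).y / (vert c).w - (vert a).y / (vert a).w)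
          - ((vert b).y / (vert b).w - (vert a).y / (vert a).w)
            * ((vert c).x / (vert c).w - (vert a).x / (vert a).w) ≠ 0 := by
        intro h0
        apply hA'
        field_simp at h0
        linarith
      generalize ((vert b).x : ℝ) / (vert b).w - (vert a).x / (vert a).w = P at hx hdet
      generalize ((vert c).x : ℝ) / (vert c).w - (vert a).x / (vert a).w = Q at hx hdet
      generalize ((vert b).y : ℝ) / (vert b).w - (vert a).y / (vert a).w = R at hy hdet
      generalize ((vert c).y : ℝ) / (vert c).w - (vert a).y / (vert a).w = T at hy hdet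
      have e1 : s * (P * T - R * Q) = 0 := by linear_combination T * hx - Q * hy
      have e2 : t * (P * T - R * Q) = 0 := by linear_combination P * hy - R * hx
      exact ⟨(mul_eq_zero.1 e1).resolve_right hdet, (mul_eq_zero.1 e2).resolve_right hdet⟩
    have h2 : Module.finrank ℝ (Submodule.span ℝ
        (Set.range ![pt (vert b) - pt (vert a), pt (vert c) - pt (vert a)])) = 2 := by
      rw [finrank_span_eq_card hli, Fintype.card_fin]
    rw [← h2]
    apply Submodule.finrank_mono
    rw [Submodule.span_le]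
    rintro _ ⟨k, rfl⟩
    fin_cases k
    · exact vsub_mem_vectorSpan ℝ ((mem_PS _ _).2 ⟨b, hb, rfl⟩) ((mem_PS _ _).2 ⟨a, ha, rfl⟩)
    · exact vsub_mem_vectorSpan ℝ ((mem_PS _ _).2 ⟨c, hc, rfl⟩) ((mem_PS _ _).2 ⟨a, ha, rfl⟩)

lemma chk_cop : ((List.range 15).all fun i => (List.range 15).all fun j => i == j ||
    ((fv j).any fun v => decide (dot (nf i) (vert v) ≠ 0))) = true := by
  decide +kernel

lemma cop_spec (i j : ℕ) (hi : i < 15) (hj : j < 15) (hij : i ≠ j) :
    ∃ v ∈ fv j, dot (nf i) (vert v) ≠ 0 := by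
  have h := chk_cop
  rw [List.all_eq_true] at h
  have h1 := h i (List.mem_range.2 hi)
  rw [List.all_eq_true] at h1
  have h2 := h1 j (List.mem_range.2 hj)
  rw [Bool.or_eq_true, List.any_eq_true] at h2
  rcases h2 with h2 | ⟨v, hv, h2⟩
  · exact absurd (by simpa using h2) hij
  · exact ⟨v, hv, by simpa using h2⟩

lemma not_coplanar (i j : ℕ) (hi : i < 15) (hj : j < 15) (hij : i ≠ j) :
    ¬ Coplanar ℝ (convexHull ℝ (PS (fv i) : Set E3) ∪ convexHull ℝ (PS (fv j) : Set E3)) := by
  intro hcop
  rw [coplanar_iff_finrank_le_two] at hcop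
  set W := vectorSpan ℝ (convexHull ℝ (PS (fv i) : Set E3) ∪ convexHull ℝ (PS (fv j) : Set E3))
    with hW
  have hle : vectorSpan ℝ (convexHull ℝ (PS (fv i) : Set E3)) ≤ W :=
    vectorSpan_mono ℝ Set.subset_union_left
  have heq : vectorSpan ℝ (convexHull ℝ (PS (fv i) : Set E3)) = W := by
    apply Submodule.eq_of_le_of_finrank_le hle
    rw [face_finrank i hi]
    exact hcop
  obtain ⟨v, hv, hne⟩ := cop_spec i j hi hj hij
  obtain ⟨a, ha, -⟩ := area_spec i hi
  have hvW : pt (vert v) - pt (vert a) ∈ W := by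
    apply vsub_mem_vectorSpan
    · right
      apply subset_convexHull
      exact (mem_PS _ _).2 ⟨v, hv, rfl⟩
    · left
      apply subset_convexHull
      exact (mem_PS _ _).2 ⟨a, ha, rfl⟩
  rw [← heq, vspan_hull] at hvW
  have hk := vspan_le_ker i hi hvW
  rw [LinearMap.mem_ker, ContinuousLinearMap.coe_coe, map_sub, lin_vert, lin_vert] at hk
  have h1 := (ev_vert_eq_zero (nf i) a).2 ((plane_spec i hi).1 a ha)
  apply hne
  rw [← ev_vert_eq_zero]
  linarith

end Pool.Agent.Helper167.Torus
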