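import Pool.Agent.Helper167.TorusHull

/-! The union of the faces is homeomorphic to the product of two circles. -/

set_option autoImplicit false

namespace Pool.Agent.Helper167.Torus

open Set

lemma circ_mem (z : ℂ) (hz : z ≠ 0) : z / (‖z‖ : ℂ) ∈ Submonoid.unitSphere ℂ := by
  have h : ‖z / (‖z‖ : ℂ)‖ = 1 := by
    rw [norm_div, Complex.norm_real, norm_norm, div_self (norm_ne_zero_iff.2 hz)]
  exact mem_sphere_zero_iff_norm.2 h

/-- Radial projection of a nonzero complex number. -/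
noncomputable def nrm (z : {z : ℂ // z ≠ 0}) : Circle := ⟨z.1 / (‖z.1‖ : ℂ), circ_mem z.1 z.2⟩

lemma nrm_coe (z : {z : ℂ // z ≠ 0}) : ((nrm z : Circle) : ℂ) = z.1 / (‖z.1‖ : ℂ) := rfl

lemma continuous_nrm : Continuous nrm := by
  apply Continuous.subtype_mk
  apply Continuous.div
  · exact continuous_subtype_val
  · exact Complex.continuous_ofReal.comp (continuous_norm.comp continuous_subtype_val)
  · intro z
    have := norm_ne_zero_iff.2 z.2
    exact_mod_cast this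

lemma nrm_eq (z w : {z : ℂ // z ≠ 0}) (h : nrm z = nrm w) :
    ∃ μ : ℝ, 0 < μ ∧ w.1.re = μ * z.1.re ∧ w.1.im = μ * z.1.im := by
  have h1 : z.1 / (‖z.1‖ : ℂ) = w.1 / (‖w.1‖ : ℂ) := by
    rw [← nrm_coe, ← nrm_coe, h]
  have hz := norm_pos_iff.2 z.2
  have hw := norm_pos_iff.2 w.2
  have hz' : (‖z.1‖ : ℂ) ≠ 0 := by exact_mod_cast hz.ne'
  have hw' : (‖w.1‖ : ℂ) ≠ 0 := by exact_mod_cast hw.ne'
  have h2 : w.1 = ((‖w.1‖ / ‖z.1‖ : ℝ) : ℂ) * z.1 := by
    push_cast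
    field_simp at h1 ⊢
    exact h1.symm
  refine ⟨‖w.1‖ / ‖z.1‖, div_pos hw hz, ?_, ?_⟩
  · conv_lhs => rw [h2]
    exact Complex.re_ofReal_mul _ _
  · conv_lhs => rw [h2]
    exact Complex.im_ofReal_mul _ _

lemma nrm_of (z : {z : ℂ // z ≠ 0}) (ω : Circle) (μ : ℝ) (hμ : 0 < μ)
    (hr : z.1.re = μ * (ω : ℂ).re) (hi : z.1.im = μ * (ω : ℂ).im) : nrm z = ω := by
  have hz : z.1 = (μ : ℂ) * (ω : ℂ) := by
    apply Complex.ext
    · rw [hr, Complex.re_ofReal_mul]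
    · rw [hi, Complex.im_ofReal_mul]
  apply Circle.ext
  rw [nrm_coe, hz, norm_mul, Circle.norm_coe, mul_one, Complex.norm_real, Real.norm_of_nonneg hμ.le]
  have : (μ : ℂ) ≠ 0 := by exact_mod_cast hμ.ne'
  field_simp

/-! ### The gauge -/

/-- Gauge in the plane. -/
noncomputable def rg (y z : ℝ) : ℝ := max (max z (2 * y - z)) (-2 * y - z)

lemma rr_eq (p : E3) : rr p = rg (p 1) (p 2) := rfl

lemma rg_mul (μ y z : ℝ) (hμ : 0 ≤ μ) : rg (μ * y) (μ * z) = μ * rg y z := by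
  unfold rg
  rw [mul_max_of_nonneg _ _ hμ, mul_max_of_nonneg _ _ hμ]
  ring_nf

lemma rg_pos (y z : ℝ) (h : ¬ (y = 0 ∧ z = 0)) : 0 < rg y z := by
  by_contra hc
  push Not at hc
  unfold rg at hc
  have h1 : z ≤ 0 := le_trans (le_max_of_le_left (le_max_left _ _)) hc
  have h2 : 2 * y - z ≤ 0 := le_trans (le_max_of_le_left (le_max_right _ _)) hc
  have h3 : -2 * y - z ≤ 0 := le_trans (le_max_right _ _) hc
  apply h
  constructor <;> linarith

lemma rg_le (y z c : ℝ) : rg y z ≤ c ↔ z ≤ c ∧ 2 * y - z ≤ c ∧ -2 * y - z ≤ c := by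
  unfold rg
  rw [max_le_iff, max_le_iff, and_assoc]

lemma continuous_rg : Continuous (fun q : ℝ × ℝ => rg q.1 q.2) := by
  unfold rg
  fun_prop

lemma continuous_rr : Continuous rr := by
  unfold rr
  fun_prop

/-! ### The centre circle -/

lemma nf_vals : nf 0 = ⟨1, 0, -2, 24⟩ ∧ nf 1 = ⟨3, -1, -4, 66⟩ ∧ nf 2 = ⟨1, 1, -2, 26⟩ ∧
    nf 3 = ⟨9, -5, -2, 174⟩ ∧ nf 4 = ⟨1, 5, 2, 26⟩ ∧ nf 5 = ⟨-1, -9, 5, 38⟩ ∧
    nf 6 = ⟨-1, 0, -2, 24⟩ ∧ nf 7 = ⟨-3, 1, -4, 66⟩ ∧ nf 8 = ⟨-1, -1, -2, 26⟩ ∧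
    nf 9 = ⟨-9, 5, -2, 174⟩ ∧ nf 10 = ⟨-1, -5, 2, 26⟩ ∧ nf 11 = ⟨1, 9, 5, 38⟩ := by
  decide +kernel

/-- Value of a functional at coordinates. -/
noncomputable def evc (f : V4) (x y z : ℝ) : ℝ := f.x * x + f.y * y + f.z * z + f.w

lemma ev_evc (f : V4) (p : E3) : ev f p = evc f (p 0) (p 1) (p 2) := rfl

lemma centre_pos (y z : ℝ) (h : rg y z ≤ 6) : ∀ f < 12, 0 < evc (nf f) 0 y z := by
  obtain ⟨h1, h2, h3⟩ := (rg_le _ _ _).1 h
  obtain ⟨e0, e1, e2, e3, e4, e5, e6, e7, e8, e9, e10, e11⟩ := nf_vals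
  intro f hf
  interval_cases f
  · rw [e0]; norm_num [evc]; linarith
  · rw [e1]; norm_num [evc]; linarith
  · rw [e2]; norm_num [evc]; linarith
  · rw [e3]; norm_num [evc]; linarith
  · rw [e4]; norm_num [evc]; linarith
  · rw [e5]; norm_num [evc]; linarith
  · rw [e6]; norm_num [evc]; linarith
  · rw [e7]; norm_num [evc]; linarith
  · rw [e8]; norm_num [evc]; linarith
  · rw [e9]; norm_num [evc]; linarith
  · rw [e10]; norm_num [evc]; linarith
  · rw [e11]; norm_num [evc]; linarith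

/-- The linear part is nonnegative for all facets only for the zero vector. -/
lemma bounded_dir (x y z : ℝ) (h : ∀ f < 12, 0 ≤ (nf f).x * x + (nf f).y * y + (nf f).z * z) :
    x = 0 ∧ y = 0 ∧ z = 0 := by
  obtain ⟨e0, e1, e2, e3, e4, e5, e6, e7, e8, e9, e10, e11⟩ := nf_vals
  have h0 := h 0 (by norm_num)
  have h1 := h 1 (by norm_num)
  have h2 := h 2 (by norm_num)
  have h3 := h 3 (by norm_num)
  have h4 := h 4 (by norm_num)
  have h5 := h 5 (by norm_num)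
  have h6 := h 6 (by norm_num)
  have h7 := h 7 (by norm_num)
  have h8 := h 8 (by norm_num)
  have h9 := h 9 (by norm_num)
  have h10 := h 10 (by norm_num)
  have h11 := h 11 (by norm_num)
  rw [e0] at h0
  rw [e1] at h1
  rw [e2] at h2
  rw [e3] at h3
  rw [e4] at h4
  rw [e5] at h5
  rw [e6] at h6
  rw [e7] at h7
  rw [e8] at h8
  rw [e9] at h9
  rw [e10] at h10
  rw [e11] at h11
  norm_num at h0 h1 h2 h3 h4 h5 h6 h7 h8 h9 h10 h11
  refine ⟨?_, ?_, ?_⟩ <;> linarith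

/-- First time an affine function of a finite family vanishes along a ray. -/
lemma first_hit {n : ℕ} (K N : Fin n → ℝ) (hK : ∀ c, 0 < K c) (hN : ∃ c, N c < 0) :
    ∃ s : ℝ, 0 < s ∧ (∀ c, 0 ≤ K c + s * N c) ∧ ∃ c, K c + s * N c = 0 := by
  classical
  obtain ⟨c1, hc1⟩ := hN
  obtain ⟨c0, hc0, hmin⟩ := Finset.exists_min_image (Finset.univ.filter fun c => N c < 0)
    (fun c => K c / (-N c)) ⟨c1, by simpa using hc1⟩
  have hn0 : N c0 < 0 := (Finset.mem_filter.1 hc0).2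
  refine ⟨K c0 / (-N c0), div_pos (hK c0) (by linarith), ?_, c0, ?_⟩
  · intro c
    rcases lt_or_ge (N c) 0 with hc | hc
    · have h := hmin c (by simpa using hc)
      have h2 : K c / (-N c) * (-N c) = K c := div_mul_cancel₀ _ (by linarith)
      have h3 : K c0 / (-N c0) * (-N c) ≤ K c / (-N c) * (-N c) :=
        mul_le_mul_of_nonneg_right h (by linarith)
      linarith
    · have h1 := div_pos (hK c0) (show 0 < -N c0 by linarith)
      have h2 := mul_nonneg h1.le hc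
      have := hK c
      linarith
  · have h2 : K c0 / (-N c0) * (-N c0) = K c0 := div_mul_cancel₀ _ (by linarith)
    linarith

end Pool.Agent.Helper167.Torus
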