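import Pool.Agent.Helper167.TorusGeom2

/-! The union of the faces described by inequalities. -/

set_option autoImplicit false

namespace Pool.Agent.Helper167.Torus

open Set

lemma hull_nonneg (f : V4) (L : List ℕ) (h : ∀ v ∈ L, 0 ≤ dot f (vert v)) {p : E3}
    (hp : p ∈ convexHull ℝ (PS L : Set E3)) : 0 ≤ ev f p := by
  have h2 := hull_le (s := PS L) (-lin f) f.w (fun y hy => by
    obtain ⟨k, hk, rfl⟩ := (mem_PS _ _).1 hy
    have h3 := ev_vert_nonneg f k (h k hk)
    rw [ev_eq] at h3
    simp only [ContinuousLinearMap.neg_apply]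
    linarith) p hp
  rw [ev_eq]
  simp only [ContinuousLinearMap.neg_apply] at h2
  linarith

/-- Negated functional. -/
def ng (f : V4) : V4 := ⟨-f.x, -f.y, -f.z, -f.w⟩

lemma ev_ng (f : V4) (p : E3) : ev (ng f) p = - ev f p := by
  simp only [ev, ng]
  push_cast
  ring

lemma dot_ng (f v : V4) : dot (ng f) v = - dot f v := by
  simp only [dot, ng]
  ring

/-- Coordinatewise check of `D e = ca fa + cb fb + cc fc + cq n`. -/
def cmbOK (D : ℤ) (e fa fb fc n : V4) (ca cb cc cq : ℤ) : Bool :=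
  decide (D * e.x = ca * fa.x + cb * fb.x + cc * fc.x + cq * n.x) &&
  decide (D * e.y = ca * fa.y + cb * fb.y + cc * fc.y + cq * n.y) &&
  decide (D * e.z = ca * fa.z + cb * fb.z + cc * fc.z + cq * n.z) &&
  decide (D * e.w = ca * fa.w + cb * fb.w + cc * fc.w + cq * n.w)

lemma cmb_sound {D : ℤ} {e fa fb fc n : V4} {ca cb cc cq : ℤ}
    (h : cmbOK D e fa fb fc n ca cb cc cq = true) (p : E3) :
    (D : ℝ) * ev e p = ca * ev fa p + cb * ev fb p + cc * ev fc p + cq * ev n p := by
  unfold cmbOK at h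
  simp only [Bool.and_eq_true, decide_eq_true_eq] at h
  obtain ⟨⟨⟨h1, h2⟩, h3⟩, h4⟩ := h
  have h1' : (D : ℝ) * e.x = ca * fa.x + cb * fb.x + cc * fc.x + cq * n.x := by exact_mod_cast h1
  have h2' : (D : ℝ) * e.y = ca * fa.y + cb * fb.y + cc * fc.y + cq * n.y := by exact_mod_cast h2
  have h3' : (D : ℝ) * e.z = ca * fa.z + cb * fb.z + cc * fc.z + cq * n.z := by exact_mod_cast h3
  have h4' : (D : ℝ) * e.w = ca * fa.w + cb * fb.w + cc * fc.w + cq * n.w := by exact_mod_cast h4
  simp only [ev]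
  linear_combination (p 0) * h1' + (p 1) * h2' + (p 2) * h3' + h4'

/-- Check of one triangle of a fan. -/
def triOK (L : List ℕ) (n : V4) (K : List V4) (s : Stp) : Bool :=
  decide (s.a ∈ L) && decide (s.b ∈ L) && decide (s.c ∈ L) &&
  decide (s.fa ∈ K) && decide (s.fb ∈ K) && decide (s.fc ∈ K) &&
  decide (0 ≤ s.ma) && decide (0 ≤ s.mb) && decide (0 ≤ s.mc) && decide (0 < s.D) &&
  cmbOK s.D ⟨1, 0, 0, 0⟩ s.fa s.fb s.fc n
    (s.ma * (vert s.a).x) (s.mb * (vert s.b).x) (s.mc * (vert s.c).x) s.q.x &&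
  cmbOK s.D ⟨0, 1, 0, 0⟩ s.fa s.fb s.fc n
    (s.ma * (vert s.a).y) (s.mb * (vert s.b).y) (s.mc * (vert s.c).y) s.q.y &&
  cmbOK s.D ⟨0, 0, 1, 0⟩ s.fa s.fb s.fc n
    (s.ma * (vert s.a).z) (s.mb * (vert s.b).z) (s.mc * (vert s.c).z) s.q.z &&
  cmbOK s.D ⟨0, 0, 0, 1⟩ s.fa s.fb s.fc n
    (s.ma * (vert s.a).w) (s.mb * (vert s.b).w) (s.mc * (vert s.c).w) s.q.w

lemma tri_sound {L : List ℕ} {n : V4} {K : List V4} {s : Stp} (h : triOK L n K s = true) {p : E3}
    (hK : ∀ f ∈ K, 0 ≤ ev f p) (hn : ev n p = 0) : p ∈ convexHull ℝ (PS L : Set E3) := by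
  unfold triOK at h
  simp only [Bool.and_eq_true, decide_eq_true_eq] at h
  obtain ⟨⟨⟨⟨⟨⟨⟨⟨⟨⟨⟨⟨⟨ha, hb⟩, hc⟩, hfa⟩, hfb⟩, hfc⟩, hma⟩, hmb⟩, hmc⟩, hD⟩, hx⟩, hy⟩, hz⟩, hw⟩ := h
  have hD' : (0 : ℝ) < s.D := by exact_mod_cast hD
  have hma' : (0 : ℝ) ≤ s.ma := by exact_mod_cast hma
  have hmb' : (0 : ℝ) ≤ s.mb := by exact_mod_cast hmb
  have hmc' : (0 : ℝ) ≤ s.mc := by exact_mod_cast hmc
  have wa := vw_pos s.a
  have wb := vw_pos s.b
  have wc := vw_pos s.c
  have ea := hK _ hfa
  have eb := hK _ hfb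
  have ec := hK _ hfc
  have hx := cmb_sound hx p
  have hy := cmb_sound hy p
  have hz := cmb_sound hz p
  have hw := cmb_sound hw p
  rw [hn] at hx hy hz hw
  set A := ev s.fa p with hA
  set B := ev s.fb p with hB
  set C := ev s.fc p with hC
  simp only [ev] at hx hy hz hw
  push_cast at hx hy hz hw
  have h3 := (convex_convexHull ℝ (PS L : Set E3)).sum_mem (t := Finset.univ)
    (w := ![s.ma * A * (vert s.a).w / s.D, s.mb * B * (vert s.b).w / s.D,
      s.mc * C * (vert s.c).w / s.D])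
    (z := ![pt (vert s.a), pt (vert s.b), pt (vert s.c)])
    (by
      intro i _
      fin_cases i
      · exact div_nonneg (mul_nonneg (mul_nonneg hma' ea) wa.le) hD'.le
      · exact div_nonneg (mul_nonneg (mul_nonneg hmb' eb) wb.le) hD'.le
      · exact div_nonneg (mul_nonneg (mul_nonneg hmc' ec) wc.le) hD'.le)
    (by
      rw [Fin.sum_univ_three]
      simp only [Matrix.cons_val_zero, Matrix.cons_val_one, Matrix.cons_val]
      field_simp
      linarith)
    (by
      intro i _
      fin_cases i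
      · exact subset_convexHull ℝ _ ((mem_PS _ _).2 ⟨s.a, ha, rfl⟩)
      · exact subset_convexHull ℝ _ ((mem_PS _ _).2 ⟨s.b, hb, rfl⟩)
      · exact subset_convexHull ℝ _ ((mem_PS _ _).2 ⟨s.c, hc, rfl⟩))
  have h4 : (∑ i : Fin 3, (![s.ma * A * (vert s.a).w / s.D, s.mb * B * (vert s.b).w / s.D,
      s.mc * C * (vert s.c).w / s.D] i : ℝ) • ![pt (vert s.a), pt (vert s.b), pt (vert s.c)] i)
      = p := by
    rw [Fin.sum_univ_three]
    simp only [Matrix.cons_val_zero, Matrix.cons_val_one, Matrix.cons_val]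
    ext i
    fin_cases i
    · simp [pt]
      field_simp
      linarith
    · simp [pt]
      field_simp
      linarith
    · simp [pt]
      field_simp
      linarith
  rw [h4] at h3
  exact h3

/-- Check of a fan of triangles. -/
def fanOK (L : List ℕ) (n : V4) : List V4 → List Stp → Bool
  | _, [] => false
  | K, [s] => triOK L n K s
  | K, s :: t :: r => triOK L n (s.d :: K) s && fanOK L n (ng s.d :: K) (t :: r)

lemma fan_sound {L : List ℕ} {n : V4} {p : E3} (hn : ev n p = 0) : ∀ (F : List Stp) (K : List V4),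
    fanOK L n K F = true → (∀ f ∈ K, 0 ≤ ev f p) → p ∈ convexHull ℝ (PS L : Set E3) := by
  intro F
  induction F with
  | nil => intro K h; simp [fanOK] at h
  | cons s r ih =>
    intro K h hK
    cases r with
    | nil =>
      simp only [fanOK] at h
      exact tri_sound h hK hn
    | cons t r =>
      simp only [fanOK, Bool.and_eq_true] at h
      rcases le_total 0 (ev s.d p) with hd | hd
      · apply tri_sound h.1 _ hn
        intro f hf
        rcases List.mem_cons.1 hf with rfl | hf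
        · exact hd
        · exact hK f hf
      · apply ih (ng s.d :: K) h.2
        intro f hf
        rcases List.mem_cons.1 hf with rfl | hf
        · rw [ev_ng]; linarith
        · exact hK f hf

/-- The functionals of the facets of the polytope. -/
def hs : List V4 := nfL.take 12

/-- The negated functionals of the walls. -/
def nts : List V4 := (nfL.drop 12).map ng

lemma chk_fan1 : ((List.range 12).all fun i =>
    fanOK (fv i) (nf i) (tgtL.getD i ⟨0, 0, 0, 0⟩ :: hs) (fanL.getD i [])) = true := by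
  decide +kernel

lemma chk_fan2 : ((List.range 3).all fun i =>
    fanOK (fv (12 + i)) (nf (12 + i)) (hs ++ nts) (fanL.getD (12 + i) [])) = true := by
  decide +kernel

/-- Check of the certificates of the auxiliary functionals. -/
def derOK (i k : ℕ) (d : Der) : Bool :=
  decide (d.f1 ∈ nf (12 + k) :: hs) && decide (d.f2 ∈ hs) && decide (d.f3 ∈ hs) &&
  decide (0 ≤ d.m1) && decide (0 ≤ d.m2) && decide (0 ≤ d.m3) && decide (0 < d.D) &&
  cmbOK d.D (tgtL.getD i ⟨0, 0, 0, 0⟩) d.f1 d.f2 d.f3 (nf i) d.m1 d.m2 d.m3 d.k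

lemma chk_der : ((List.range 12).all fun i => (List.range 3).all fun k =>
    derOK i k ((derL.getD i []).getD k ⟨⟨0, 0, 0, 0⟩, ⟨0, 0, 0, 0⟩, ⟨0, 0, 0, 0⟩, 0, 0, 0, 0, 0⟩))
      = true := by
  decide +kernel

lemma der_sound {i k : ℕ} {d : Der} (h : derOK i k d = true) {p : E3}
    (hK : ∀ f ∈ hs, 0 ≤ ev f p) (hk : 0 ≤ ev (nf (12 + k)) p) (hn : ev (nf i) p = 0) :
    0 ≤ ev (tgtL.getD i ⟨0, 0, 0, 0⟩) p := by
  unfold derOK at h
  simp only [Bool.and_eq_true, decide_eq_true_eq] at h
  obtain ⟨⟨⟨⟨⟨⟨⟨h1, h2⟩, h3⟩, m1⟩, m2⟩, m3⟩, hD⟩, hc⟩ := h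
  have hc := cmb_sound hc p
  rw [hn] at hc
  have hD' : (0 : ℝ) < d.D := by exact_mod_cast hD
  have m1' : (0 : ℝ) ≤ d.m1 := by exact_mod_cast m1
  have m2' : (0 : ℝ) ≤ d.m2 := by exact_mod_cast m2
  have m3' : (0 : ℝ) ≤ d.m3 := by exact_mod_cast m3
  have e1 : 0 ≤ ev d.f1 p := by
    rcases List.mem_cons.1 h1 with h | h
    · rw [h]; exact hk
    · exact hK _ h
  have e2 := hK _ h2
  have e3 := hK _ h3
  have : 0 ≤ (d.D : ℝ) * ev (tgtL.getD i ⟨0, 0, 0, 0⟩) p := by
    rw [hc]
    have := mul_nonneg m1' e1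
    have := mul_nonneg m2' e2
    have := mul_nonneg m3' e3
    linarith
  exact nonneg_of_mul_nonneg_right this hD'

/-! ### Membership -/

/-- The gauge of the tunnel. -/
noncomputable def rr (p : E3) : ℝ := max (max (p 2) (2 * p 1 - p 2)) (-2 * p 1 - p 2)

lemma ev_t0 (p : E3) : ev (nf 12) p = p 2 - 3 := by
  have : nf 12 = ⟨0, 0, 1, -3⟩ := by decide +kernel
  rw [this]; simp [ev]; ring
lemma ev_t1 (p : E3) : ev (nf 13) p = 2 * p 1 - p 2 - 3 := by
  have : nf 13 = ⟨0, 2, -1, -3⟩ := by decide +kernel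
  rw [this]; simp [ev]; ring
lemma ev_t2 (p : E3) : ev (nf 14) p = -2 * p 1 - p 2 - 3 := by
  have : nf 14 = ⟨0, -2, -1, -3⟩ := by decide +kernel
  rw [this]; simp [ev]; ring

/-- The union of the faces. -/
noncomputable def UU : Set E3 := ⋃ i : Fin 15, convexHull ℝ (PS (fv i) : Set E3)

lemma chk_in : ((List.range 15).all fun i => (List.range 12).all fun f =>
    (fv i).all fun v => decide (0 ≤ dot (nf f) (vert v))) = true := by
  decide +kernel

lemma chk_out : ((List.range 12).all fun i => (List.range 3).any fun k =>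
    (fv i).all fun v => decide (0 ≤ dot (nf (12 + k)) (vert v))) = true := by
  decide +kernel

lemma chk_wall : ((List.range 3).all fun i => (List.range 3).all fun k =>
    (fv (12 + i)).all fun v => decide (dot (nf (12 + k)) (vert v) ≤ 0)) = true := by
  decide +kernel

lemma ev_zero_of_mem {i : ℕ} (hi : i < 15) {p : E3}
    (hp : p ∈ convexHull ℝ (PS (fv i) : Set E3)) : ev (nf i) p = 0 := by
  have h1 := hull_nonneg (nf i) (fv i) (fun v hv => ((plane_spec i hi).1 v hv).ge) hp
  have h2 := hull_nonneg (ng (nf i)) (fv i) (fun v hv => by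
    rw [dot_ng, (plane_spec i hi).1 v hv]; simp) hp
  rw [ev_ng] at h2
  linarith

lemma ev_hs {p : E3} (h : ∀ f < 12, 0 ≤ ev (nf f) p) : ∀ f ∈ hs, 0 ≤ ev f p := by
  intro f hf
  have h2 : ∃ k, k < 12 ∧ nf k = f := by
    unfold hs at hf
    rw [List.mem_iff_getElem] at hf
    obtain ⟨k, hk, rfl⟩ := hf
    have hk12 : k < 12 := by
      rw [List.length_take] at hk
      omega
    refine ⟨k, hk12, ?_⟩
    rw [List.getElem_take]
    unfold nf
    rw [List.getD_eq_getElem?_getD, List.getElem?_eq_getElem]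
    rfl
  obtain ⟨k, hk, rfl⟩ := h2
  exact h k hk

lemma UU_sub {p : E3} (hp : p ∈ UU) : (∀ f < 12, 0 ≤ ev (nf f) p) ∧ 3 ≤ rr p ∧
    ((∃ i < 12, ev (nf i) p = 0) ∨ rr p = 3) := by
  unfold UU at hp
  rw [Set.mem_iUnion] at hp
  obtain ⟨⟨i, hi⟩, hp⟩ := hp
  simp only at hp
  have hin := chk_in
  rw [List.all_eq_true] at hin
  have hin := hin i (List.mem_range.2 hi)
  rw [List.all_eq_true] at hin
  have h1 : ∀ f < 12, 0 ≤ ev (nf f) p := by
    intro f hf
    have h := hin f (List.mem_range.2 hf)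
    rw [List.all_eq_true] at h
    exact hull_nonneg (nf f) (fv i) (fun v hv => by simpa using h v hv) hp
  have h0 := ev_zero_of_mem hi hp
  refine ⟨h1, ?_⟩
  rcases lt_or_ge i 12 with hi12 | hi12
  · have hout := chk_out
    rw [List.all_eq_true] at hout
    have hout := hout i (List.mem_range.2 hi12)
    rw [List.any_eq_true] at hout
    obtain ⟨k, hk, hkv⟩ := hout
    rw [List.all_eq_true] at hkv
    have hk0 := hull_nonneg (nf (12 + k)) (fv i) (fun v hv => by simpa using hkv v hv) hp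
    have hk3 : k < 3 := List.mem_range.1 hk
    refine ⟨?_, Or.inl ⟨i, hi12, h0⟩⟩
    unfold rr
    interval_cases k
    · have := ev_t0 p
      have h5 : p 2 ≤ max (max (p 2) (2 * p 1 - p 2)) (-2 * p 1 - p 2) :=
        le_max_of_le_left (le_max_left _ _)
      simp only [Nat.add_zero] at hk0
      linarith
    · have := ev_t1 p
      have h5 : 2 * p 1 - p 2 ≤ max (max (p 2) (2 * p 1 - p 2)) (-2 * p 1 - p 2) :=
        le_max_of_le_left (le_max_right _ _)
      simp only [Nat.reduceAdd] at hk0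
      linarith
    · have := ev_t2 p
      have h5 : -2 * p 1 - p 2 ≤ max (max (p 2) (2 * p 1 - p 2)) (-2 * p 1 - p 2) :=
        le_max_right _ _
      simp only [Nat.reduceAdd] at hk0
      linarith
  · obtain ⟨j, rfl⟩ : ∃ j, i = 12 + j := ⟨i - 12, by omega⟩
    have hj : j < 3 := by omega
    have hw := chk_wall
    rw [List.all_eq_true] at hw
    have hw := hw j (List.mem_range.2 hj)
    rw [List.all_eq_true] at hw
    have hle : ∀ k < 3, ev (nf (12 + k)) p ≤ 0 := by
      intro k hk
      have h := hw k (List.mem_range.2 hk)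
      rw [List.all_eq_true] at h
      have := hull_nonneg (ng (nf (12 + k))) (fv (12 + j)) (fun v hv => by
        rw [dot_ng]
        have h' : dot (nf (12 + k)) (vert v) ≤ 0 := by simpa using h v hv
        omega) hp
      rw [ev_ng] at this
      linarith
    have k0 := hle 0 (by norm_num)
    have k1 := hle 1 (by norm_num)
    have k2 := hle 2 (by norm_num)
    simp only [Nat.add_zero, Nat.reduceAdd] at k0 k1 k2
    rw [ev_t0] at k0
    rw [ev_t1] at k1
    rw [ev_t2] at k2
    have hr3 : rr p ≤ 3 := by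
      unfold rr
      apply max_le (max_le _ _) _ <;> linarith
    have hr3' : 3 ≤ rr p := by
      unfold rr
      interval_cases j
      · have := ev_t0 p
        have h5 : p 2 ≤ max (max (p 2) (2 * p 1 - p 2)) (-2 * p 1 - p 2) :=
          le_max_of_le_left (le_max_left _ _)
        simp only [Nat.add_zero] at h0
        linarith
      · have := ev_t1 p
        have h5 : 2 * p 1 - p 2 ≤ max (max (p 2) (2 * p 1 - p 2)) (-2 * p 1 - p 2) :=
          le_max_of_le_left (le_max_right _ _)
        simp only [Nat.reduceAdd] at h0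
        linarith
      · have := ev_t2 p
        have h5 : -2 * p 1 - p 2 ≤ max (max (p 2) (2 * p 1 - p 2)) (-2 * p 1 - p 2) :=
          le_max_right _ _
        simp only [Nat.reduceAdd] at h0
        linarith
    exact ⟨hr3', Or.inr (le_antisymm hr3 hr3')⟩

lemma UU_sup {p : E3} (h1 : ∀ f < 12, 0 ≤ ev (nf f) p) (h2 : 3 ≤ rr p)
    (h3 : (∃ i < 12, ev (nf i) p = 0) ∨ rr p = 3) : p ∈ UU := by
  unfold UU
  rw [Set.mem_iUnion]
  rcases h3 with ⟨i, hi, h0⟩ | hr
  · have hk : ∃ k < 3, 0 ≤ ev (nf (12 + k)) p := by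
      unfold rr at h2
      rcases le_max_iff.1 h2 with h | h
      · rcases le_max_iff.1 h with h | h
        · refine ⟨0, by norm_num, ?_⟩
          have := ev_t0 p
          simp only [Nat.add_zero]
          linarith
        · refine ⟨1, by norm_num, ?_⟩
          have := ev_t1 p
          simp only [Nat.reduceAdd]
          linarith
      · refine ⟨2, by norm_num, ?_⟩
        have := ev_t2 p
        simp only [Nat.reduceAdd]
        linarith
    obtain ⟨k, hk3, hk0⟩ := hk
    have hd := chk_der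
    rw [List.all_eq_true] at hd
    have hd := hd i (List.mem_range.2 hi)
    rw [List.all_eq_true] at hd
    have hd := hd k (List.mem_range.2 hk3)
    have ht := der_sound hd (ev_hs h1) hk0 h0
    have hf := chk_fan1
    rw [List.all_eq_true] at hf
    have hf := hf i (List.mem_range.2 hi)
    refine ⟨⟨i, by omega⟩, ?_⟩
    simp only
    apply fan_sound h0 _ _ hf
    intro f hf
    rcases List.mem_cons.1 hf with rfl | hf
    · exact ht
    · exact ev_hs h1 f hf
  · have hle : p 2 ≤ 3 ∧ 2 * p 1 - p 2 ≤ 3 ∧ -2 * p 1 - p 2 ≤ 3 := by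
      unfold rr at hr
      refine ⟨?_, ?_, ?_⟩
      · rw [← hr]; exact le_max_of_le_left (le_max_left _ _)
      · rw [← hr]; exact le_max_of_le_left (le_max_right _ _)
      · rw [← hr]; exact le_max_right _ _
    have hk : ∃ k < 3, ev (nf (12 + k)) p = 0 := by
      have hr' : 3 ≤ rr p := hr.ge
      unfold rr at hr'
      rcases le_max_iff.1 hr' with h | h
      · rcases le_max_iff.1 h with h | h
        · refine ⟨0, by norm_num, ?_⟩
          have := ev_t0 p
          simp only [Nat.add_zero]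
          linarith [hle.1]
        · refine ⟨1, by norm_num, ?_⟩
          have := ev_t1 p
          simp only [Nat.reduceAdd]
          linarith [hle.2.1]
      · refine ⟨2, by norm_num, ?_⟩
        have := ev_t2 p
        simp only [Nat.reduceAdd]
        linarith [hle.2.2]
    obtain ⟨k, hk3, hk0⟩ := hk
    have hf := chk_fan2
    rw [List.all_eq_true] at hf
    have hf := hf k (List.mem_range.2 hk3)
    refine ⟨⟨12 + k, by omega⟩, ?_⟩
    simp only
    apply fan_sound hk0 _ _ hf
    intro f hf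
    rcases List.mem_append.1 hf with hf | hf
    · exact ev_hs h1 f hf
    · have hnts : nts = [ng (nf 12), ng (nf 13), ng (nf 14)] := by decide +kernel
      rw [hnts] at hf
      simp only [List.mem_cons, List.not_mem_nil, or_false] at hf
      rcases hf with rfl | rfl | rfl
      · rw [ev_ng, ev_t0]; linarith [hle.1]
      · rw [ev_ng, ev_t1]; linarith [hle.2.1]
      · rw [ev_ng, ev_t2]; linarith [hle.2.2]

end Pool.Agent.Helper167.Torus
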